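import Pool.Agent.Lib_helper26.Ebe.Defs

set_option autoImplicit false

open MvPolynomial Pool.Agent.Lib_helper26.SOS

namespace Pool.Agent.Lib_helper26.Ebe

/-! # Module P: Hermitian diagonalization -/

/-- the exponent `(a, b)` -/
noncomputable def pse {n : ℕ} (a b : Fin n →₀ ℕ) : Fin n ⊕ Fin n →₀ ℕ :=
  a.mapDomain Sum.inl + b.mapDomain Sum.inr

theorem pse_inl {n : ℕ} (a b : Fin n →₀ ℕ) (i : Fin n) : pse a b (Sum.inl i) = a i := by
  unfold pse
  rw [Finsupp.add_apply, Finsupp.mapDomain_apply Sum.inl_injective,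
    Finsupp.mapDomain_of_notMem_range, add_zero]
  rintro ⟨x, hx⟩
  cases hx

theorem pse_inr {n : ℕ} (a b : Fin n →₀ ℕ) (i : Fin n) : pse a b (Sum.inr i) = b i := by
  unfold pse
  rw [Finsupp.add_apply, Finsupp.mapDomain_apply Sum.inr_injective,
    Finsupp.mapDomain_of_notMem_range, zero_add]
  rintro ⟨x, hx⟩
  cases hx

/-- first part of an exponent -/
noncomputable def psl {n : ℕ} (s : Fin n ⊕ Fin n →₀ ℕ) : Fin n →₀ ℕ :=
  Finsupp.equivFunOnFinite.symm (fun i => s (Sum.inl i))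

/-- second part of an exponent -/
noncomputable def psr {n : ℕ} (s : Fin n ⊕ Fin n →₀ ℕ) : Fin n →₀ ℕ :=
  Finsupp.equivFunOnFinite.symm (fun i => s (Sum.inr i))

theorem pse_surj {n : ℕ} (s : Fin n ⊕ Fin n →₀ ℕ) : pse (psl s) (psr s) = s := by
  ext i
  rcases i with i | i
  · rw [pse_inl]; rfl
  · rw [pse_inr]; rfl

theorem pse_inj {n : ℕ} {a b a' b' : Fin n →₀ ℕ} (h : pse a b = pse a' b') : a = a' ∧ b = b' := by
  constructor
  · ext i
    rw [← pse_inl a b i, h, pse_inl]
  · ext i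
    rw [← pse_inr a b i, h, pse_inr]

theorem psl_pse {n : ℕ} (a b : Fin n →₀ ℕ) : psl (pse a b) = a :=
  (pse_inj (pse_surj (pse a b))).1

theorem psr_pse {n : ℕ} (a b : Fin n →₀ ℕ) : psr (pse a b) = b :=
  (pse_inj (pse_surj (pse a b))).2

theorem pse_swap {n : ℕ} (a b : Fin n →₀ ℕ) : (pse a b).mapDomain Sum.swap = pse b a := by
  unfold pse
  rw [Finsupp.mapDomain_add, ← Finsupp.mapDomain_comp, ← Finsupp.mapDomain_comp, add_comm]
  rfl

theorem rename_mul_monomial {n : ℕ} (a b : Fin n →₀ ℕ) (c d : ℂ) :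
    rename (Sum.inl : Fin n → Fin n ⊕ Fin n) (monomial a c) *
      rename (Sum.inr : Fin n → Fin n ⊕ Fin n) (monomial b d) = monomial (pse a b) (c * d) := by
  rw [rename_monomial, rename_monomial, monomial_mul]
  rfl

/-- conjugation and exchange of the two groups of variables -/
noncomputable def psw {n : ℕ} : MvPolynomial (Fin n ⊕ Fin n) ℂ →+* MvPolynomial (Fin n ⊕ Fin n) ℂ :=
  (rename (Sum.swap : Fin n ⊕ Fin n → Fin n ⊕ Fin n)).toRingHom.comp
    (MvPolynomial.map (starRingEnd ℂ))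

theorem cj_cj {n : ℕ} (p : MvPolynomial (Fin n) ℂ) : cj (cj p) = p := by
  unfold cj
  rw [MvPolynomial.map_map]
  have : (starRingEnd ℂ).comp (starRingEnd ℂ) = RingHom.id ℂ := by
    ext x; simp
  rw [this, MvPolynomial.map_id]

theorem psw_inl {n : ℕ} (p : MvPolynomial (Fin n) ℂ) :
    psw (rename Sum.inl p) = rename Sum.inr (cj p) := by
  unfold psw cj
  simp only [RingHom.comp_apply, AlgHom.toRingHom_eq_coe, RingHom.coe_coe]
  rw [map_rename, rename_rename]
  rfl

theorem psw_inr {n : ℕ} (p : MvPolynomial (Fin n) ℂ) :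
    psw (rename Sum.inr p) = rename Sum.inl (cj p) := by
  unfold psw cj
  simp only [RingHom.comp_apply, AlgHom.toRingHom_eq_coe, RingHom.coe_coe]
  rw [map_rename, rename_rename]
  rfl

theorem psw_q {n : ℕ} : psw (q n) = q n := by
  unfold q
  rw [map_sum]
  refine Finset.sum_congr rfl fun k _ => ?_
  rw [map_mul]
  have h1 := psw_inl (X k : MvPolynomial (Fin n) ℂ)
  have h2 := psw_inr (X k : MvPolynomial (Fin n) ℂ)
  have h3 : cj (X k : MvPolynomial (Fin n) ℂ) = X k := by unfold cj; rw [map_X]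
  rw [h3, rename_X, rename_X] at h1 h2
  rw [h1, h2, mul_comm]

theorem coeff_psw {n : ℕ} (A : MvPolynomial (Fin n ⊕ Fin n) ℂ) (a b : Fin n →₀ ℕ) :
    coeff (pse b a) (psw A) = (starRingEnd ℂ) (coeff (pse a b) A) := by
  unfold psw
  simp only [RingHom.comp_apply, AlgHom.toRingHom_eq_coe, RingHom.coe_coe]
  rw [← pse_swap, coeff_rename_mapDomain _ (Sum.swap_leftInverse.injective), coeff_map]

/-- the quotient is Hermitian -/
theorem psw_eq {n : ℕ} (hn : 1 ≤ n) {ι : Type*} [Fintype ι] (p : ι → MvPolynomial (Fin n) ℂ)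
    (A : MvPolynomial (Fin n ⊕ Fin n) ℂ)
    (h : ∑ i, rename Sum.inl (p i) * rename Sum.inr (cj (p i)) = q n * A) : psw A = A := by
  have h1 := congrArg psw h
  rw [map_mul, psw_q, map_sum] at h1
  have h2 : ∑ i, psw (rename Sum.inl (p i) * rename Sum.inr (cj (p i))) =
      ∑ i, rename Sum.inl (p i) * rename Sum.inr (cj (p i)) := by
    refine Finset.sum_congr rfl fun i _ => ?_
    rw [map_mul, psw_inl, psw_inr, cj_cj, mul_comm]
  rw [h2, h] at h1
  exact (mul_left_cancel₀ (q_ne_zero hn) h1).symm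

/-- expansion over a finite set of monomials -/
theorem expand {n : ℕ} (A : MvPolynomial (Fin n ⊕ Fin n) ℂ) :
    ∃ T : Finset (Fin n →₀ ℕ), A = ∑ a : T, ∑ b : T,
      monomial (pse (a : Fin n →₀ ℕ) (b : Fin n →₀ ℕ)) (coeff (pse (a : Fin n →₀ ℕ) b) A) := by
  classical
  refine ⟨A.support.image psl ∪ A.support.image psr, ?_⟩
  set T := A.support.image psl ∪ A.support.image psr with hT
  have h1 : ∑ a : T, ∑ b : T,
      monomial (pse (a : Fin n →₀ ℕ) (b : Fin n →₀ ℕ)) (coeff (pse (a : Fin n →₀ ℕ) b) A) =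
      ∑ x ∈ T ×ˢ T, monomial (pse x.1 x.2) (coeff (pse x.1 x.2) A) := by
    rw [Finset.sum_product, ← Finset.sum_coe_sort T]
    refine Finset.sum_congr rfl fun a _ => ?_
    rw [← Finset.sum_coe_sort T]
  rw [h1]
  ext s
  rw [coeff_sum]
  simp only [coeff_monomial]
  by_cases hs : s ∈ A.support
  · rw [Finset.sum_eq_single (psl s, psr s)]
    · rw [pse_surj, if_pos rfl]
    · intro x _ hx
      rw [if_neg]
      intro hxs
      apply hx
      rw [← hxs, psl_pse, psr_pse]
    · intro hx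
      exfalso
      apply hx
      rw [Finset.mem_product]
      exact ⟨Finset.mem_union_left _ (Finset.mem_image_of_mem _ hs),
        Finset.mem_union_right _ (Finset.mem_image_of_mem _ hs)⟩
  · rw [notMem_support_iff.1 hs]
    symm
    refine Finset.sum_eq_zero fun x _ => ?_
    by_cases hx : pse x.1 x.2 = s
    · rw [if_pos hx, hx, notMem_support_iff.1 hs]
    · rw [if_neg hx]

/-- Spectral theorem for Hermitian polynomials. -/
theorem diag_of_psw {n : ℕ} (A : MvPolynomial (Fin n ⊕ Fin n) ℂ) (hA : psw A = A) :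
    ∃ (ρ : ℕ) (f : Fin ρ → MvPolynomial (Fin n) ℂ) (ε : Fin ρ → ℝ), LinearIndependent ℂ f ∧
      (∀ k, ε k = 1 ∨ ε k = -1) ∧
      A = ∑ k, C (ε k : ℂ) * rename Sum.inl (f k) * rename Sum.inr (cj (f k)) := by
  classical
  obtain ⟨T, hT⟩ := expand A
  let M : Matrix T T ℂ := fun a b => coeff (pse (a : Fin n →₀ ℕ) b) A
  have hM : M.IsHermitian := by
    ext a b
    rw [Matrix.conjTranspose_apply]
    change star (coeff (pse (b : Fin n →₀ ℕ) a) A) = coeff (pse (a : Fin n →₀ ℕ) b) A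
    conv_rhs => rw [← hA]
    rw [coeff_psw]
    rfl
  let U : Matrix T T ℂ := hM.eigenvectorUnitary
  let d : T → ℝ := hM.eigenvalues
  have hspec : ∀ a b : T, M a b = ∑ k, U a k * (d k : ℂ) * (starRingEnd ℂ) (U b k) := by
    intro a b
    have h1 := hM.spectral_theorem
    rw [Unitary.conjStarAlgAut_apply] at h1
    have h2 := congrFun (congrFun h1 a) b
    rw [h2, Matrix.mul_apply]
    refine Finset.sum_congr rfl fun k _ => ?_
    rw [Matrix.mul_diagonal, Matrix.star_apply]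
    rfl
  let g : T → MvPolynomial (Fin n) ℂ := fun k => ∑ a : T, monomial (a : Fin n →₀ ℕ) (U a k)
  have hcg : ∀ (a : T) (k : T), coeff (a : Fin n →₀ ℕ) (g k) = U a k := by
    intro a k
    simp only [g]
    rw [coeff_sum, Finset.sum_eq_single a]
    · rw [coeff_monomial, if_pos rfl]
    · intro b _ hb
      rw [coeff_monomial, if_neg]
      exact fun h => hb (Subtype.ext h)
    · intro h; exact absurd (Finset.mem_univ a) h
  have hg : LinearIndependent ℂ g := by
    rw [Fintype.linearIndependent_iff]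
    intro c hc k
    have h1 : U.mulVec c = 0 := by
      funext a
      have h2 := congrArg (coeff (a : Fin n →₀ ℕ)) hc
      rw [coeff_sum, coeff_zero] at h2
      rw [Matrix.mulVec, dotProduct, Pi.zero_apply, ← h2]
      refine Finset.sum_congr rfl fun k _ => ?_
      rw [coeff_smul, hcg, smul_eq_mul, mul_comm]
    have h3 : (star U) * U = 1 := Unitary.coe_star_mul_self hM.eigenvectorUnitary
    have h4 : c = 0 := by
      have : ((star U) * U).mulVec c = 0 := by
        rw [← Matrix.mulVec_mulVec, h1, Matrix.mulVec_zero]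
      rwa [h3, Matrix.one_mulVec] at this
    rw [h4]; rfl
  have hAg : A = ∑ k, C (d k : ℂ) * rename Sum.inl (g k) * rename Sum.inr (cj (g k)) := by
    have h1 : ∀ k, C (d k : ℂ) * rename Sum.inl (g k) * rename Sum.inr (cj (g k)) =
        ∑ a : T, ∑ b : T, monomial (pse (a : Fin n →₀ ℕ) b)
          (U a k * (d k : ℂ) * (starRingEnd ℂ) (U b k)) := by
      intro k
      simp only [g]
      have e2 : cj (∑ a : T, monomial (a : Fin n →₀ ℕ) (U a k)) =
          ∑ a : T, monomial (a : Fin n →₀ ℕ) ((starRingEnd ℂ) (U a k)) := by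
        unfold cj
        rw [map_sum]
        refine Finset.sum_congr rfl fun a _ => ?_
        rw [map_monomial]
      rw [e2, map_sum, map_sum, mul_assoc, Finset.sum_mul_sum, Finset.mul_sum]
      refine Finset.sum_congr rfl fun a _ => ?_
      rw [Finset.mul_sum]
      refine Finset.sum_congr rfl fun b _ => ?_
      rw [rename_mul_monomial, C_mul_monomial]
      congr 1
      ring
    simp_rw [h1]
    rw [Finset.sum_comm]
    conv_lhs => rw [hT]
    refine Finset.sum_congr rfl fun a _ => ?_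
    rw [Finset.sum_comm]
    refine Finset.sum_congr rfl fun b _ => ?_
    rw [← map_sum, ← hspec a b]
  -- discard the zero eigenvalues and normalise
  let J : Type := {k : T // d k ≠ 0}
  let e : Fin (Fintype.card J) ≃ J := (Fintype.equivFin J).symm
  have hw : ∀ k : J, ((Real.sqrt |d k.1| : ℝ) : ℂ) ≠ 0 := by
    intro k
    have : 0 < Real.sqrt |d k.1| := Real.sqrt_pos.2 (abs_pos.2 k.2)
    exact_mod_cast this.ne'
  let w : J → ℂˣ := fun k => Units.mk0 _ (hw k)
  let f' : J → MvPolynomial (Fin n) ℂ := fun k => (w k) • g k.1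
  have hf' : LinearIndependent ℂ f' := by
    have h1 : LinearIndependent ℂ (fun k : J => g k.1) := hg.comp _ Subtype.val_injective
    exact h1.units_smul w
  refine ⟨Fintype.card J, fun i => f' (e i), fun i => d (e i).1 / |d (e i).1|,
    hf'.comp _ e.injective, ?_, ?_⟩
  · intro i
    have h1 : d (e i).1 ≠ 0 := (e i).2
    rcases lt_or_gt_of_ne h1 with h2 | h2
    · right
      change d (e i).1 / |d (e i).1| = -1
      rw [abs_of_neg h2, div_neg, div_self h1]
    · left
      change d (e i).1 / |d (e i).1| = 1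
      rw [abs_of_pos h2, div_self h1]
  · have h1 : ∑ i, C (((d (e i).1 / |d (e i).1| : ℝ)) : ℂ) * rename Sum.inl (f' (e i)) *
        rename Sum.inr (cj (f' (e i))) =
        ∑ k : J, C (((d k.1 / |d k.1| : ℝ)) : ℂ) * rename Sum.inl (f' k) *
        rename Sum.inr (cj (f' k)) :=
      Equiv.sum_comp e (fun k : J => C (((d k.1 / |d k.1| : ℝ)) : ℂ) * rename Sum.inl (f' k) *
        rename Sum.inr (cj (f' k)))
    rw [h1]
    have h2 : ∀ k : J, C (((d k.1 / |d k.1| : ℝ)) : ℂ) * rename Sum.inl (f' k) *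
        rename Sum.inr (cj (f' k)) =
        C (d k.1 : ℂ) * rename Sum.inl (g k.1) * rename Sum.inr (cj (g k.1)) := by
      intro k
      have e1 : f' k = C ((Real.sqrt |d k.1| : ℝ) : ℂ) * g k.1 := by
        rw [← smul_eq_C_mul]; rfl
      have e2 : cj (f' k) = C ((Real.sqrt |d k.1| : ℝ) : ℂ) * cj (g k.1) := by
        rw [e1]
        unfold cj
        rw [map_mul, map_C, Complex.conj_ofReal]
      rw [e2, e1, map_mul, map_mul, rename_C, rename_C]
      have e3 : C (((d k.1 / |d k.1| : ℝ)) : ℂ) * (C ((Real.sqrt |d k.1| : ℝ) : ℂ) *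
          C ((Real.sqrt |d k.1| : ℝ) : ℂ)) = (C (d k.1 : ℂ) : MvPolynomial (Fin n ⊕ Fin n) ℂ) := by
        rw [← C_mul, ← C_mul, ← Complex.ofReal_mul, ← Complex.ofReal_mul,
          Real.mul_self_sqrt (abs_nonneg _), div_mul_cancel₀ _ (abs_ne_zero.2 k.2)]
      rw [← e3]
      ring
    simp_rw [h2]
    rw [hAg]
    rw [← Finset.sum_subtype (Finset.univ.filter fun k : T => d k ≠ 0) (by simp)
      (fun k : T => C (d k : ℂ) * rename Sum.inl (g k) * rename Sum.inr (cj (g k)))]
    symm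
    refine Finset.sum_subset (Finset.filter_subset _ _) ?_
    intro k _ hk
    have : d k = 0 := by
      by_contra h
      exact hk (Finset.mem_filter.2 ⟨Finset.mem_univ _, h⟩)
    rw [this, Complex.ofReal_zero, C_0, zero_mul, zero_mul]

/-- Module P, first part. -/
theorem hermitian_diag {n : ℕ} (hn : 1 ≤ n) {ι : Type*} [Fintype ι]
    (p : ι → MvPolynomial (Fin n) ℂ) (A : MvPolynomial (Fin n ⊕ Fin n) ℂ)
    (h : ∑ i, rename Sum.inl (p i) * rename Sum.inr (cj (p i)) = q n * A) :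
    ∃ (ρ : ℕ) (f : Fin ρ → MvPolynomial (Fin n) ℂ) (ε : Fin ρ → ℝ), LinearIndependent ℂ f ∧
      (∀ k, ε k = 1 ∨ ε k = -1) ∧
      A = ∑ k, C (ε k : ℂ) * rename Sum.inl (f k) * rename Sum.inr (cj (f k)) :=
  diag_of_psw A (psw_eq hn p A h)

/-! ### evaluation of functionals -/

/-- the functional `φ ⊗ φ̄` -/
noncomputable def pph {n : ℕ} (φ : MvPolynomial (Fin n) ℂ →ₗ[ℂ] ℂ) :
    MvPolynomial (Fin n ⊕ Fin n) ℂ →ₗ[ℂ] ℂ :=
  (MvPolynomial.basisMonomials (Fin n ⊕ Fin n) ℂ).constr ℂ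
    (fun s => φ (monomial (psl s) 1) * (starRingEnd ℂ) (φ (monomial (psr s) 1)))

theorem pph_monomial {n : ℕ} (φ : MvPolynomial (Fin n) ℂ →ₗ[ℂ] ℂ) (a b : Fin n →₀ ℕ) (c : ℂ) :
    pph φ (monomial (pse a b) c) =
      c * (φ (monomial a 1) * (starRingEnd ℂ) (φ (monomial b 1))) := by
  have h1 : monomial (pse a b) c = c • (MvPolynomial.basisMonomials (Fin n ⊕ Fin n) ℂ) (pse a b) := by
    rw [coe_basisMonomials, smul_monomial, smul_eq_mul, mul_one]
  rw [h1, map_smul]
  unfold pph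
  rw [Module.Basis.constr_basis, psl_pse, psr_pse, smul_eq_mul]

theorem pph_mul {n : ℕ} (φ : MvPolynomial (Fin n) ℂ →ₗ[ℂ] ℂ) (a b : MvPolynomial (Fin n) ℂ) :
    pph φ (rename Sum.inl a * rename Sum.inr (cj b)) = φ a * (starRingEnd ℂ) (φ b) := by
  induction a using MvPolynomial.induction_on' with
  | add a a' ha ha' => rw [map_add, add_mul, map_add, ha, ha', map_add, add_mul]
  | monomial s c =>
    induction b using MvPolynomial.induction_on' with
    | add b b' hb hb' =>
      have : cj (b + b') = cj b + cj b' := by unfold cj; rw [map_add]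
      rw [this, map_add, mul_add, map_add, hb, hb', map_add, map_add, mul_add]
    | monomial t d =>
      have : cj (monomial t d) = monomial t ((starRingEnd ℂ) d) := by unfold cj; rw [map_monomial]
      rw [this, rename_mul_monomial, pph_monomial]
      have e1 : φ (monomial s c) = c * φ (monomial s 1) := by
        rw [← smul_eq_mul, ← map_smul, smul_monomial, smul_eq_mul, mul_one]
      have e2 : φ (monomial t d) = d * φ (monomial t 1) := by
        rw [← smul_eq_mul, ← map_smul, smul_monomial, smul_eq_mul, mul_one]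
      rw [e1, e2, map_mul]
      ring

theorem pph_self {n : ℕ} (φ : MvPolynomial (Fin n) ℂ →ₗ[ℂ] ℂ) (a : MvPolynomial (Fin n) ℂ) :
    pph φ (rename Sum.inl a * rename Sum.inr (cj a)) = ((‖φ a‖ ^ 2 : ℝ) : ℂ) := by
  rw [pph_mul, Complex.mul_conj, Complex.normSq_eq_norm_sq]

/-- ranges of positive semidefinite forms -/
theorem psd_range {n : ℕ} {ι κ μ : Type*} [Fintype ι] [Fintype κ] [Fintype μ]
    (p : ι → MvPolynomial (Fin n) ℂ) (g : κ → MvPolynomial (Fin n) ℂ)
    (h : μ → MvPolynomial (Fin n) ℂ)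
    (heq : ∑ i, rename Sum.inl (p i) * rename Sum.inr (cj (p i)) +
      ∑ i, rename Sum.inl (g i) * rename Sum.inr (cj (g i)) =
      ∑ i, rename Sum.inl (h i) * rename Sum.inr (cj (h i))) :
    Submodule.span ℂ (Set.range p) ≤ Submodule.span ℂ (Set.range h) := by
  rw [Submodule.span_le]
  rintro _ ⟨i, rfl⟩
  by_contra hi
  obtain ⟨φ, hφ, hle⟩ := Submodule.exists_le_ker_of_notMem hi
  have h1 := congrArg (pph φ) heq
  simp only [map_add, map_sum, pph_self] at h1
  have h2 : ∀ j, φ (h j) = 0 := fun j => hle (Submodule.subset_span ⟨j, rfl⟩)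
  simp only [h2, norm_zero] at h1
  have h3 : ∑ j, ‖φ (p j)‖ ^ 2 + ∑ j, ‖φ (g j)‖ ^ 2 = 0 := by
    have h4 : ((∑ j, ‖φ (p j)‖ ^ 2 + ∑ j, ‖φ (g j)‖ ^ 2 : ℝ) : ℂ) = 0 := by
      rw [Complex.ofReal_add, Complex.ofReal_sum, Complex.ofReal_sum, h1]
      simp
    exact_mod_cast h4
  have h5 : 0 ≤ ∑ j, ‖φ (g j)‖ ^ 2 := Finset.sum_nonneg fun j _ => by positivity
  have h6 : ‖φ (p i)‖ ^ 2 ≤ ∑ j, ‖φ (p j)‖ ^ 2 :=
    Finset.single_le_sum (f := fun j => ‖φ (p j)‖ ^ 2) (fun j _ => by positivity)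
      (Finset.mem_univ i)
  have h7 : ‖φ (p i)‖ ^ 2 ≤ 0 := by linarith
  have h8 : ‖φ (p i)‖ = 0 := by
    have := sq_nonneg ‖φ (p i)‖
    exact pow_eq_zero_iff (two_ne_zero) |>.1 (le_antisymm h7 this)
  exact hφ (norm_eq_zero.1 h8)

/-- `q A` as a combination of squares -/
theorem q_mul_diag {n ρ : ℕ} (f : Fin ρ → MvPolynomial (Fin n) ℂ) (ε : Fin ρ → ℝ) :
    q n * ∑ k, C (ε k : ℂ) * rename Sum.inl (f k) * rename Sum.inr (cj (f k)) =
      ∑ x : Fin n × Fin ρ, C (ε x.2 : ℂ) * (rename Sum.inl (X x.1 * f x.2) *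
        rename Sum.inr (cj (X x.1 * f x.2))) := by
  unfold q
  rw [Finset.sum_mul_sum, Fintype.sum_prod_type]
  refine Finset.sum_congr rfl fun i _ => Finset.sum_congr rfl fun k _ => ?_
  have : cj (X i * f k) = X i * cj (f k) := by unfold cj; rw [map_mul, map_X]
  rw [this, map_mul, map_mul, rename_X, rename_X]
  ring

/-- Module P, second part: the span of the `p_i` is contained in `S_1` of the span of the
positive `f_k`. -/
theorem span_le_pos {n : ℕ} {ι : Type*} [Fintype ι] (p : ι → MvPolynomial (Fin n) ℂ)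
    {ρ : ℕ} (f : Fin ρ → MvPolynomial (Fin n) ℂ) (ε : Fin ρ → ℝ)
    (hε : ∀ k, ε k = 1 ∨ ε k = -1)
    (h : ∑ i, rename Sum.inl (p i) * rename Sum.inr (cj (p i)) =
      q n * ∑ k, C (ε k : ℂ) * rename Sum.inl (f k) * rename Sum.inr (cj (f k))) :
    Submodule.span ℂ (Set.range p) ≤
      Submodule.span ℂ {g | ∃ (i : Fin n) (k : Fin ρ), ε k = 1 ∧ g = X i * f k} := by
  classical
  rw [q_mul_diag] at h
  let P : Type := {x : Fin n × Fin ρ // ε x.2 = 1}
  let Q : Type := {x : Fin n × Fin ρ // ¬ ε x.2 = 1}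
  have h1 := psd_range (ι := ι) (κ := Q) (μ := P) p (fun x => X x.1.1 * f x.1.2)
    (fun x => X x.1.1 * f x.1.2) (by
      rw [h, ← Fintype.sum_subtype_add_sum_subtype (fun x : Fin n × Fin ρ => ε x.2 = 1)]
      have e1 : ∀ x : P, C (ε x.1.2 : ℂ) * (rename Sum.inl (X x.1.1 * f x.1.2) *
          rename Sum.inr (cj (X x.1.1 * f x.1.2))) = rename Sum.inl (X x.1.1 * f x.1.2) *
          rename (Sum.inr : Fin n → Fin n ⊕ Fin n) (cj (X x.1.1 * f x.1.2)) := by
        intro x
        rw [x.2, Complex.ofReal_one, C_1, one_mul]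
      have e2 : ∀ x : Q, C (ε x.1.2 : ℂ) * (rename Sum.inl (X x.1.1 * f x.1.2) *
          rename Sum.inr (cj (X x.1.1 * f x.1.2))) = - (rename Sum.inl (X x.1.1 * f x.1.2) *
          rename (Sum.inr : Fin n → Fin n ⊕ Fin n) (cj (X x.1.1 * f x.1.2))) := by
        intro x
        rw [(hε x.1.2).resolve_left x.2, Complex.ofReal_neg, Complex.ofReal_one, C_neg, C_1,
          neg_one_mul]
      rw [Finset.sum_congr rfl fun x _ => e1 x, Finset.sum_congr rfl fun x _ => e2 x,
        Finset.sum_neg_distrib, add_assoc, neg_add_cancel, add_zero])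
  refine h1.trans (Submodule.span_mono ?_)
  rintro _ ⟨x, rfl⟩
  exact ⟨x.1.1, x.1.2, x.2, rfl⟩

/-- Module P, third part: equality if all signs are positive. -/
theorem span_eq_of_psd {n : ℕ} {ι : Type*} [Fintype ι] (p : ι → MvPolynomial (Fin n) ℂ)
    {ρ : ℕ} (f : Fin ρ → MvPolynomial (Fin n) ℂ) (ε : Fin ρ → ℝ) (hε : ∀ k, ε k = 1)
    (h : ∑ i, rename Sum.inl (p i) * rename Sum.inr (cj (p i)) =
      q n * ∑ k, C (ε k : ℂ) * rename Sum.inl (f k) * rename Sum.inr (cj (f k))) :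
    Submodule.span ℂ (Set.range p) =
      Submodule.span ℂ {g | ∃ (i : Fin n) (k : Fin ρ), g = X i * f k} := by
  apply le_antisymm
  · refine (span_le_pos p f ε (fun k => Or.inl (hε k)) h).trans (Submodule.span_mono ?_)
    rintro g ⟨i, k, _, hg⟩
    exact ⟨i, k, hg⟩
  · rw [q_mul_diag] at h
    have h1 := psd_range (ι := Fin n × Fin ρ) (κ := Empty) (μ := ι)
      (fun x => X x.1 * f x.2) (fun x => x.elim) p (by
        rw [h, Finset.univ_eq_empty (α := Empty), Finset.sum_empty, add_zero]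
        refine Finset.sum_congr rfl fun x _ => ?_
        rw [hε, Complex.ofReal_one, C_1, one_mul])
    refine le_trans (Submodule.span_mono ?_) h1
    rintro g ⟨i, k, hg⟩
    exact ⟨(i, k), hg.symm⟩

end Pool.Agent.Lib_helper26.Ebe
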