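import Pool.Agent.Lib_helper26.Ebe.Defs

set_option autoImplicit false

open MvPolynomial Pool.Agent.Lib_helper26.SOS

namespace Pool.Agent.Lib_helper26.Ebe

/-! # Module CR: generic restrictions of coprime spaces are coprime -/

open Polynomial in
theorem cr_resultant {S : Type*} [CommRing S] [IsDomain S] [UniqueFactorizationMonoid S]
    (f g : S[X]) (h : IsRelPrime f g) (hf : f ≠ 0) : f.resultant g ≠ 0 := by
  classical
  intro h0
  unfold resultant at h0
  rw [← Matrix.exists_mulVec_eq_zero_iff] at h0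
  obtain ⟨v, hv, hv0⟩ := h0
  rw [← toMatrix_sylvesterMap' f g le_rfl le_rfl] at hv0
  set b₁ := ((degreeLT.basis S f.natDegree).prod (degreeLT.basis S g.natDegree)).reindex
    finSumFinEquiv with hb₁
  set b₂ := degreeLT.basis S (f.natDegree + g.natDegree) with hb₂
  obtain ⟨x, hx⟩ : ∃ x, (b₁.repr x : _ → S) = v := ⟨b₁.equivFun.symm v, by
    rw [← Module.Basis.equivFun_apply, LinearEquiv.apply_symm_apply]⟩
  rw [← hx, LinearMap.toMatrix_mulVec_repr] at hv0
  have h1 : sylvesterMap f g le_rfl le_rfl x = 0 := by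
    apply b₂.repr.injective
    rw [map_zero]
    ext i
    exact congrFun hv0 i
  have h2 : f * (x.2 : S[X]) + g * (x.1 : S[X]) = 0 := congrArg Subtype.val h1
  have h3 : f ∣ (x.1 : S[X]) := by
    apply h.dvd_of_dvd_mul_left
    exact ⟨-(x.2 : S[X]), by linear_combination h2⟩
  have h4 : (x.1 : S[X]) = 0 := by
    by_contra hne
    have h5 := natDegree_le_of_dvd h3 hne
    have h6 := x.1.2
    rw [mem_degreeLT, degree_eq_natDegree hne] at h6
    have : (x.1 : S[X]).natDegree < f.natDegree := by exact_mod_cast h6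
    omega
  have h5 : (x.2 : S[X]) = 0 := by
    rw [h4, mul_zero, add_zero] at h2
    exact (mul_eq_zero.1 h2).resolve_left hf
  apply hv
  rw [← hx]
  have h6 : x = 0 := by
    apply Prod.ext
    · exact Subtype.ext h4
    · exact Subtype.ext h5
  rw [h6, map_zero]
  rfl

section shift

variable {N : ℕ}

/-- `f(z) ↦ f(z + X e)` -/
noncomputable def crT (e : Fin N → ℂ) :
    MvPolynomial (Fin N) ℂ →ₐ[ℂ] Polynomial (MvPolynomial (Fin N) ℂ) :=
  aeval (fun i => Polynomial.C (X i) + Polynomial.C (C (e i)) * Polynomial.X)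

/-- extension to polynomials in `X` -/
noncomputable def crT' (e : Fin N → ℂ) :
    Polynomial (MvPolynomial (Fin N) ℂ) →+* Polynomial (MvPolynomial (Fin N) ℂ) :=
  Polynomial.eval₂RingHom (crT e).toRingHom Polynomial.X

theorem crT'_C (e : Fin N → ℂ) (f : MvPolynomial (Fin N) ℂ) :
    crT' e (Polynomial.C f) = crT e f := by
  unfold crT'
  simp

theorem crT'_X (e : Fin N → ℂ) : crT' e Polynomial.X = Polynomial.X := by
  unfold crT'
  simp

theorem crT_X (e : Fin N → ℂ) (i : Fin N) :
    crT e (X i) = Polynomial.C (X i) + Polynomial.C (C (e i)) * Polynomial.X := by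
  unfold crT
  rw [aeval_X]

theorem crT_C (e : Fin N → ℂ) (c : ℂ) : crT e (C c) = Polynomial.C (C c) := by
  unfold crT
  rw [aeval_C]
  rfl

theorem crT'_inv (e : Fin N → ℂ) (p : Polynomial (MvPolynomial (Fin N) ℂ)) :
    crT' (-e) (crT' e p) = p := by
  have h : (crT' (-e)).comp (crT' e) = RingHom.id _ := by
    apply Polynomial.ringHom_ext'
    · apply MvPolynomial.ringHom_ext
      · intro c
        simp only [RingHom.comp_apply, RingHom.id_apply]
        rw [crT'_C, crT_C, crT'_C, crT_C]
      · intro i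
        simp only [RingHom.comp_apply, RingHom.id_apply]
        rw [crT'_C, crT_X, map_add, map_mul, crT'_C, crT'_C, crT'_X, crT_X, crT_C]
        rw [Pi.neg_apply, map_neg, map_neg]
        ring
    · simp only [RingHom.comp_apply, RingHom.id_apply]
      rw [crT'_X, crT'_X]
  exact congrArg (fun φ => φ p) h |>.trans rfl

theorem cr_relprime_C {f g : MvPolynomial (Fin N) ℂ} (h : IsRelPrime f g) (hf : f ≠ 0) :
    IsRelPrime (Polynomial.C f) (Polynomial.C g) := by
  intro d h1 h2
  have h3 := Polynomial.natDegree_le_of_dvd h1 (Polynomial.C_ne_zero.2 hf)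
  rw [Polynomial.natDegree_C] at h3
  obtain ⟨c, rfl⟩ : ∃ c, d = Polynomial.C c := ⟨_, Polynomial.eq_C_of_natDegree_le_zero h3⟩
  rw [Polynomial.C_dvd_iff_dvd_coeff] at h1 h2
  have h1' := h1 0
  have h2' := h2 0
  rw [Polynomial.coeff_C_zero] at h1' h2'
  exact (h h1' h2').map Polynomial.C

theorem cr_relprime_T {f g : MvPolynomial (Fin N) ℂ} (h : IsRelPrime f g) (hf : f ≠ 0)
    (e : Fin N → ℂ) : IsRelPrime (crT e f) (crT e g) := by
  intro d h1 h2
  have h3 := map_dvd (crT' (-e)) h1
  have h4 := map_dvd (crT' (-e)) h2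
  rw [← crT'_C, crT'_inv] at h3 h4
  have h5 := cr_relprime_C h hf h3 h4
  have h6 := h5.map (crT' e)
  have h7 := crT'_inv (-e) d
  rw [neg_neg] at h7
  rwa [h7] at h6

theorem crT_ne_zero {f : MvPolynomial (Fin N) ℂ} (hf : f ≠ 0) (e : Fin N → ℂ) : crT e f ≠ 0 := by
  intro h
  rw [← crT'_C] at h
  have h1 := crT'_inv e (Polynomial.C f)
  rw [h, map_zero] at h1
  exact hf (Polynomial.C_eq_zero.1 h1.symm)

/-- specialisation at `y`: `f(y + X e)` -/
noncomputable def crL (e y : Fin N → ℂ) : MvPolynomial (Fin N) ℂ →ₐ[ℂ] Polynomial ℂ :=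
  aeval (fun i => Polynomial.C (y i) + Polynomial.C (e i) * Polynomial.X)

theorem crT_map (e y : Fin N → ℂ) (f : MvPolynomial (Fin N) ℂ) :
    (crT e f).map (eval y) = crL e y f := by
  have h : ((Polynomial.mapRingHom (eval y)).comp (crT e).toRingHom) = (crL e y).toRingHom := by
    apply MvPolynomial.ringHom_ext
    · intro c
      simp only [RingHom.comp_apply, AlgHom.toRingHom_eq_coe, RingHom.coe_coe]
      rw [crT_C, Polynomial.coe_mapRingHom, Polynomial.map_C, eval_C]
      unfold crL
      rw [aeval_C]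
      rfl
    · intro i
      simp only [RingHom.comp_apply, AlgHom.toRingHom_eq_coe, RingHom.coe_coe]
      rw [crT_X]
      unfold crL
      rw [aeval_X]
      simp
  exact congrArg (fun φ => φ f) h |>.trans rfl

theorem crL_prod (e y : Fin N → ℂ) (m : Fin N →₀ ℕ) (s : Finset (Fin N)) :
    (∏ i ∈ s, (Polynomial.C (y i) + Polynomial.C (e i) * Polynomial.X) ^ m i).natDegree ≤
        ∑ i ∈ s, m i ∧
      (∏ i ∈ s, (Polynomial.C (y i) + Polynomial.C (e i) * Polynomial.X) ^ m i).coeff
        (∑ i ∈ s, m i) = ∏ i ∈ s, e i ^ m i := by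
  classical
  have hlin : ∀ i, (Polynomial.C (y i) + Polynomial.C (e i) * Polynomial.X).natDegree ≤ 1 := by
    intro i
    compute_degree
  induction s using Finset.induction_on with
  | empty => simp
  | insert a s ha ih =>
    rw [Finset.prod_insert ha, Finset.sum_insert ha, Finset.prod_insert ha]
    have h1 : ((Polynomial.C (y a) + Polynomial.C (e a) * Polynomial.X) ^ m a).natDegree ≤ m a := by
      refine Polynomial.natDegree_pow_le.trans ?_
      have := hlin a
      nlinarith
    refine ⟨Polynomial.natDegree_mul_le.trans (add_le_add h1 ih.1), ?_⟩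
    rw [Polynomial.coeff_mul_add_eq_of_natDegree_le h1 ih.1, ih.2]
    congr 1
    have h2 := Polynomial.coeff_pow_of_natDegree_le (m := m a) (hlin a)
    rw [mul_one] at h2
    rw [h2]
    congr 1
    simp

theorem crL_hom (e y : Fin N → ℂ) {f : MvPolynomial (Fin N) ℂ} {D : ℕ} (hf : f.IsHomogeneous D) :
    (crL e y f).natDegree ≤ D ∧ (crL e y f).coeff D = eval e f := by
  have h1 : crL e y f = ∑ m ∈ f.support, Polynomial.C (coeff m f) *
      ∏ i, (Polynomial.C (y i) + Polynomial.C (e i) * Polynomial.X) ^ m i := by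
    unfold crL
    rw [aeval_def, eval₂_eq']
    rfl
  have hdeg : ∀ m ∈ f.support, ∑ i, m i = D := by
    intro m hm
    have := hf (mem_support_iff.1 hm)
    rw [← this, Finsupp.weight_apply, Finsupp.sum_fintype _ _ (by simp)]
    simp
  constructor
  · rw [h1]
    refine Polynomial.natDegree_sum_le_of_forall_le _ _ fun m hm => ?_
    refine (Polynomial.natDegree_C_mul_le _ _).trans ?_
    rw [← hdeg m hm]
    exact (crL_prod e y m Finset.univ).1
  · rw [h1, Polynomial.finsetSum_coeff, eval_eq']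
    refine Finset.sum_congr rfl fun m hm => ?_
    rw [Polynomial.coeff_C_mul, ← hdeg m hm, (crL_prod e y m Finset.univ).2]

theorem crL_natDegree (e y : Fin N → ℂ) {f : MvPolynomial (Fin N) ℂ} {D : ℕ}
    (hf : f.IsHomogeneous D) (he : eval e f ≠ 0) : (crL e y f).natDegree = D := by
  obtain ⟨h1, h2⟩ := crL_hom e y hf
  exact Polynomial.natDegree_eq_of_le_of_coeff_ne_zero h1 (by rw [h2]; exact he)

/-- Bezout: there is `ρ ≠ 0` such that the restrictions to the lines `y + X e` with `ρ(y) ≠ 0`
are coprime. -/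
theorem cr_line {f g : MvPolynomial (Fin N) ℂ} {D : ℕ} (hD : 1 ≤ D) (h : IsRelPrime f g)
    (hf0 : f ≠ 0) (hf : f.IsHomogeneous D) {e : Fin N → ℂ} (he : eval e f ≠ 0) :
    ∃ ρ : MvPolynomial (Fin N) ℂ, ρ ≠ 0 ∧ ∀ y, eval y ρ ≠ 0 →
      IsCoprime (crL e y f) (crL e y g) := by
  have h1 := cr_relprime_T h hf0 e
  have h2 := cr_resultant _ _ h1 (crT_ne_zero hf0 e)
  have h3 : (crT e f).natDegree ≠ 0 := by
    have h4 := crL_natDegree e 0 hf he
    rw [← crT_map] at h4
    have h5 := Polynomial.natDegree_map_le (f := eval (0 : Fin N → ℂ)) (p := crT e f)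
    omega
  obtain ⟨p, q', _, _, hpq⟩ := Polynomial.exists_mul_add_mul_eq_C_resultant (crT e f) (crT e g)
    le_rfl le_rfl (Or.inl h3)
  refine ⟨_, h2, fun y hy => ?_⟩
  have h4 := congrArg (Polynomial.map (eval y)) hpq
  rw [Polynomial.map_add, Polynomial.map_mul, Polynomial.map_mul, crT_map, crT_map,
    Polynomial.map_C] at h4
  refine ⟨Polynomial.C (eval y ((crT e f).resultant (crT e g)))⁻¹ * p.map (eval y),
    Polynomial.C (eval y ((crT e f).resultant (crT e g)))⁻¹ * q'.map (eval y), ?_⟩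
  have h5 : Polynomial.C (eval y ((crT e f).resultant (crT e g)))⁻¹ *
      Polynomial.C (eval y ((crT e f).resultant (crT e g))) = 1 := by
    rw [← Polynomial.C_mul, inv_mul_cancel₀ hy, Polynomial.C_1]
  linear_combination Polynomial.C (eval y ((crT e f).resultant (crT e g)))⁻¹ * h4 + h5

end shift

/-! ### generic linear independence -/

section gen

variable {N n : ℕ}

/-- universal substitution -/
noncomputable def subU : MvPolynomial (Fin N) ℂ →ₐ[ℂ]
    MvPolynomial (Fin n) (MvPolynomial (Fin N × Fin n) ℂ) :=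
  aeval (fun i => ∑ j, C (X (i, j)) * X j)

theorem subU_map (g : Fin N × Fin n → ℂ) (f : MvPolynomial (Fin N) ℂ) :
    (subU f).map (eval g) = sub g f := by
  have h : ((MvPolynomial.map (eval g)).comp (subU (N := N) (n := n)).toRingHom) =
      (sub g).toRingHom := by
    apply MvPolynomial.ringHom_ext
    · intro c
      simp only [RingHom.comp_apply, AlgHom.toRingHom_eq_coe, RingHom.coe_coe]
      unfold subU sub
      rw [aeval_C, aeval_C, MvPolynomial.algebraMap_eq]
      have : (algebraMap ℂ (MvPolynomial (Fin n) (MvPolynomial (Fin N × Fin n) ℂ))) c =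
          C (C c) := rfl
      rw [this, map_C, eval_C]
    · intro i
      simp only [RingHom.comp_apply, AlgHom.toRingHom_eq_coe, RingHom.coe_coe]
      unfold subU sub
      rw [aeval_X, aeval_X, map_sum]
      refine Finset.sum_congr rfl fun j _ => ?_
      rw [map_mul, map_C, map_X, eval_X]
  exact congrArg (fun φ => φ f) h |>.trans rfl

/-- extension of a functional -/
noncomputable def crF {τ : Type*} (φ : MvPolynomial (Fin n) ℂ →ₗ[ℂ] ℂ) :
    MvPolynomial (Fin n) (MvPolynomial τ ℂ) →ₗ[MvPolynomial τ ℂ] MvPolynomial τ ℂ :=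
  (MvPolynomial.basisMonomials (Fin n) (MvPolynomial τ ℂ)).constr (MvPolynomial τ ℂ)
    (fun m => C (φ (monomial m 1)))

theorem crF_monomial {τ : Type*} (φ : MvPolynomial (Fin n) ℂ →ₗ[ℂ] ℂ) (m : Fin n →₀ ℕ)
    (c : MvPolynomial τ ℂ) : crF φ (monomial m c) = c * C (φ (monomial m 1)) := by
  have h1 : monomial m c = c • (MvPolynomial.basisMonomials (Fin n) (MvPolynomial τ ℂ)) m := by
    rw [coe_basisMonomials, smul_monomial, smul_eq_mul, mul_one]
  rw [h1, map_smul]
  unfold crF
  rw [Module.Basis.constr_basis, smul_eq_mul]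

theorem crF_eval {τ : Type*} (φ : MvPolynomial (Fin n) ℂ →ₗ[ℂ] ℂ) (g : τ → ℂ)
    (F : MvPolynomial (Fin n) (MvPolynomial τ ℂ)) :
    eval g (crF φ F) = φ (F.map (eval g)) := by
  induction F using MvPolynomial.induction_on' with
  | monomial m c =>
    rw [crF_monomial, map_mul, eval_C, map_monomial]
    have e : φ (monomial m (eval g c)) = eval g c * φ (monomial m 1) := by
      rw [← smul_eq_mul, ← map_smul, smul_monomial, smul_eq_mul, mul_one]
    rw [e]
  | add a b ha hb => rw [map_add, map_add, ha, hb, map_add, map_add]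

theorem cr_dual {ι : Type*} [DecidableEq ι] (w : ι → MvPolynomial (Fin n) ℂ)
    (h : LinearIndependent ℂ w) :
    ∃ φ : ι → (MvPolynomial (Fin n) ℂ →ₗ[ℂ] ℂ), ∀ i j, φ i (w j) = if i = j then 1 else 0 := by
  have hex : ∀ i, ∃ φ : MvPolynomial (Fin n) ℂ →ₗ[ℂ] ℂ,
      φ.comp (Submodule.span ℂ (Set.range w)).subtype = (Module.Basis.span h).coord i :=
    fun i => LinearMap.exists_extend _
  choose φ hφ using hex
  refine ⟨φ, fun i j => ?_⟩
  have h1 := congrArg (fun ψ => ψ (Module.Basis.span h j)) (hφ i)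
  simp only [LinearMap.comp_apply, Submodule.subtype_apply, Module.Basis.coord_apply,
    Module.Basis.repr_self, Finsupp.single_apply] at h1
  rw [Module.Basis.span_apply] at h1
  rw [h1]
  simp only [eq_comm]

theorem cr_generic {τ ι : Type*} [Fintype ι] [DecidableEq ι]
    (W : ι → MvPolynomial (Fin n) (MvPolynomial τ ℂ))
    (g0 : τ → ℂ) (h : LinearIndependent ℂ (fun i => (W i).map (eval g0))) :
    ∃ Φ : MvPolynomial τ ℂ, Φ ≠ 0 ∧ ∀ g, eval g Φ ≠ 0 →
      LinearIndependent ℂ (fun i => (W i).map (eval g)) := by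
  obtain ⟨φ, hφ⟩ := cr_dual _ h
  let M : Matrix ι ι (MvPolynomial τ ℂ) := fun i j => crF (φ i) (W j)
  have hM : ∀ g, eval g M.det = Matrix.det (fun i j => φ i ((W j).map (eval g))) := by
    intro g
    rw [RingHom.map_det]
    congr 1
    ext i j
    rw [RingHom.mapMatrix_apply, Matrix.map_apply]
    exact crF_eval _ _ _
  refine ⟨M.det, ?_, ?_⟩
  · intro h0
    have h1 := hM g0
    rw [h0, map_zero] at h1
    have h2 : (fun i j => φ i ((W j).map (eval g0))) = (1 : Matrix ι ι ℂ) := by
      ext i j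
      rw [hφ, Matrix.one_apply]
    rw [h2, Matrix.det_one] at h1
    exact zero_ne_one h1
  · intro g hg
    rw [hM] at hg
    rw [Fintype.linearIndependent_iff]
    intro c hc
    have h1 : Matrix.mulVec (fun i j => φ i ((W j).map (eval g))) c = 0 := by
      funext i
      have h2 := congrArg (φ i) hc
      rw [map_sum, map_zero] at h2
      rw [Matrix.mulVec, dotProduct, Pi.zero_apply, ← h2]
      refine Finset.sum_congr rfl fun j _ => ?_
      rw [map_smul, smul_eq_mul, mul_comm]
    have h3 := Matrix.eq_zero_of_mulVec_eq_zero hg h1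
    exact fun i => congrFun h3 i

end gen

/-! ### the box of monomials -/

/-- monomials of the box -/
noncomputable def crm {n D : ℕ} (x : Fin n → Fin D) : MvPolynomial (Fin n) ℂ :=
  monomial (Finsupp.equivFunOnFinite.symm fun i => (x i : ℕ)) 1

theorem crm_coeff {n D : ℕ} (x y : Fin n → Fin D) :
    coeff (Finsupp.equivFunOnFinite.symm fun i => (x i : ℕ)) (crm y) = if y = x then 1 else 0 := by
  unfold crm
  rw [coeff_monomial]
  by_cases h : y = x
  · rw [if_pos h, h, if_pos rfl]
  · rw [if_neg h, if_neg]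
    intro h1
    apply h
    have h2 := Finsupp.equivFunOnFinite.symm.injective h1
    funext i
    exact Fin.ext (congrFun h2 i)

theorem crm_sum_coeff {n D : ℕ} (c : (Fin n → Fin D) → ℂ) (x : Fin n → Fin D) :
    coeff (Finsupp.equivFunOnFinite.symm fun i => (x i : ℕ)) (∑ y, c y • crm y) = c x := by
  rw [coeff_sum, Finset.sum_eq_single x]
  · rw [coeff_smul, crm_coeff, if_pos rfl, smul_eq_mul, mul_one]
  · intro y _ hy
    rw [coeff_smul, crm_coeff, if_neg hy, smul_zero]
  · intro h; exact absurd (Finset.mem_univ x) h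

theorem crm_expand {n D : ℕ} (A : MvPolynomial (Fin n) ℂ) (hA : A.totalDegree < D) :
    A = ∑ x : Fin n → Fin D,
      coeff (Finsupp.equivFunOnFinite.symm fun i => (x i : ℕ)) A • crm x := by
  ext m
  by_cases hm : ∀ i, m i < D
  · let x : Fin n → Fin D := fun i => ⟨m i, hm i⟩
    have hx : m = Finsupp.equivFunOnFinite.symm fun i => (x i : ℕ) := by
      ext i; rfl
    rw [hx, crm_sum_coeff (fun x : Fin n → Fin D =>
      coeff (Finsupp.equivFunOnFinite.symm fun i => (x i : ℕ)) A)]
  · push Not at hm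
    obtain ⟨i, hi⟩ := hm
    have h1 : coeff m A = 0 := by
      by_contra hne
      have h2 := le_totalDegree (mem_support_iff.2 hne)
      have h3 : m i ≤ m.sum fun _ e => e := by
        rw [Finsupp.sum_fintype _ _ (by simp)]
        exact Finset.single_le_sum (f := fun i => m i) (fun _ _ => Nat.zero_le _)
          (Finset.mem_univ i)
      omega
    rw [h1, coeff_sum]
    symm
    refine Finset.sum_eq_zero fun x _ => ?_
    rw [coeff_smul]
    unfold crm
    rw [coeff_monomial, if_neg, smul_zero]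
    intro h2
    have h3 : m i = x i := by rw [← h2]; rfl
    have := (x i).2
    omega

/-- the family `{x^m F} ∪ {x^m F'}` -/
noncomputable def crW {n D : ℕ} (F F' : MvPolynomial (Fin n) ℂ) :
    (Fin n → Fin D) ⊕ (Fin n → Fin D) → MvPolynomial (Fin n) ℂ :=
  Sum.elim (fun x => crm x * F) (fun x => crm x * F')

theorem crW_sum {n D : ℕ} (F F' : MvPolynomial (Fin n) ℂ)
    (c : (Fin n → Fin D) ⊕ (Fin n → Fin D) → ℂ) :
    ∑ i, c i • crW F F' i = (∑ x, c (Sum.inl x) • crm x) * F + (∑ x, c (Sum.inr x) • crm x) * F' := by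
  rw [Fintype.sum_sum_type, Finset.sum_mul, Finset.sum_mul]
  congr 1 <;> refine Finset.sum_congr rfl fun x _ => ?_
  · rw [smul_mul_assoc]; rfl
  · rw [smul_mul_assoc]; rfl

/-- independence of the family implies coprimality -/
theorem cr_unit {n D : ℕ} (hD : 1 ≤ D) {F F' : MvPolynomial (Fin n) ℂ} (hF : F.totalDegree ≤ D)
    (hF' : F'.totalDegree ≤ D) (h : LinearIndependent ℂ (crW (D := D) F F'))
    {d : MvPolynomial (Fin n) ℂ} (h1 : d ∣ F) (h2 : d ∣ F') : IsUnit d := by
  rw [Fintype.linearIndependent_iff] at h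
  have inj : ∀ A B : MvPolynomial (Fin n) ℂ, A.totalDegree < D → B.totalDegree < D →
      A * F + B * F' = 0 → A = 0 ∧ B = 0 := by
    intro A B hA hB hAB
    have h3 := h (Sum.elim
      (fun x => coeff (Finsupp.equivFunOnFinite.symm fun i => (x i : ℕ)) A)
      (fun x => coeff (Finsupp.equivFunOnFinite.symm fun i => (x i : ℕ)) B)) (by
        rw [crW_sum]
        simp only [Sum.elim_inl, Sum.elim_inr]
        rw [← crm_expand A hA, ← crm_expand B hB, hAB])
    constructor
    · rw [crm_expand A hA]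
      refine Finset.sum_eq_zero fun x _ => ?_
      have h4 := h3 (Sum.inl x)
      rw [Sum.elim_inl] at h4
      rw [h4, zero_smul]
    · rw [crm_expand B hB]
      refine Finset.sum_eq_zero fun x _ => ?_
      have h4 := h3 (Sum.inr x)
      rw [Sum.elim_inr] at h4
      rw [h4, zero_smul]
  have hne : ¬ (F = 0 ∧ F' = 0) := by
    rintro ⟨e1, e2⟩
    have := (inj 1 0 (by rw [totalDegree_one]; omega) (by rw [totalDegree_zero]; omega)
      (by rw [e1, e2]; simp)).1
    exact one_ne_zero this
  by_contra hd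
  obtain ⟨F1, hF1⟩ := h1
  obtain ⟨F2, hF2⟩ := h2
  have hd0 : d ≠ 0 := by
    rintro rfl
    exact hne ⟨by rw [hF1, zero_mul], by rw [hF2, zero_mul]⟩
  have hdd : 1 ≤ d.totalDegree := by
    by_contra h3
    have h4 : d.totalDegree = 0 := by omega
    rw [totalDegree_eq_zero_iff_eq_C] at h4
    apply hd
    rw [h4]
    apply IsUnit.map
    rw [isUnit_iff_ne_zero]
    intro h5
    rw [h5, C_0] at h4
    exact hd0 h4
  have hdeg : ∀ P Q : MvPolynomial (Fin n) ℂ, P = d * Q → P.totalDegree ≤ D → Q.totalDegree < D := by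
    intro P Q hPQ hP
    by_cases hQ : Q = 0
    · rw [hQ, totalDegree_zero]; omega
    · rw [hPQ, totalDegree_mul_of_isDomain hd0 hQ] at hP
      omega
  have h5 := inj F2 (-F1) (hdeg _ _ hF2 hF') (by
    rw [totalDegree_neg]; exact hdeg _ _ hF1 hF) (by rw [hF1, hF2]; ring)
  apply hne
  constructor
  · rw [hF1, neg_eq_zero.1 h5.2, mul_zero]
  · rw [hF2, h5.1, mul_zero]

/-! ### the special substitution -/

/-- `X_0 ↦ X`, `X_i ↦ c_i` -/
noncomputable def crd {k : ℕ} (c : Fin (k + 2) → ℂ) :
    MvPolynomial (Fin (k + 2)) ℂ →ₐ[ℂ] Polynomial ℂ :=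
  aeval (fun i => if i = 0 then Polynomial.X else Polynomial.C (c i))

/-- the matrix with columns `e, y, 0, ...` -/
def crg {N k : ℕ} (e y : Fin N → ℂ) : Fin N × Fin (k + 2) → ℂ :=
  fun x => if x.2 = 0 then e x.1 else if x.2 = 1 then y x.1 else 0

theorem crd_sub {N k : ℕ} (e y : Fin N → ℂ) (c : Fin (k + 2) → ℂ) (f : MvPolynomial (Fin N) ℂ) :
    crd c (sub (crg e y) f) = crL e (fun i => y i * c 1) f := by
  have h : (crd c).comp (sub (crg e y)) = crL e (fun i => y i * c 1) := by
    apply MvPolynomial.algHom_ext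
    intro i
    rw [AlgHom.comp_apply]
    unfold sub crL
    rw [aeval_X, aeval_X, map_sum, Fin.sum_univ_succ, Fin.sum_univ_succ]
    have h0 : ∀ j : Fin k, crd c (C (crg e y (i, j.succ.succ)) * X j.succ.succ) = 0 := by
      intro j
      have : crg e y (i, j.succ.succ) = 0 := by
        unfold crg
        have h1 : (j.succ.succ : Fin (k + 2)) ≠ 0 := Fin.succ_ne_zero _
        have h2 : (j.succ.succ : Fin (k + 2)) ≠ 1 := by
          intro h3
          have := congrArg Fin.val h3
          simp at this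
        simp only [h1, h2, if_false]
      rw [this, C_0, zero_mul, map_zero]
    rw [Finset.sum_congr rfl fun j _ => h0 j, Finset.sum_const_zero, add_zero]
    unfold crd crg
    simp only [map_mul, aeval_X, aeval_C, if_true, Polynomial.algebraMap_eq]
    have h10 : (Fin.succ 0 : Fin (k + 2)) = 1 := rfl
    have h11 : (1 : Fin (k + 2)) ≠ 0 := by
      intro h3
      have := congrArg Fin.val h3
      simp at this
    rw [h10]
    simp only [h11, if_false, if_true]
    ring
  exact congrArg (fun φ => φ f) h |>.trans rfl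

theorem crd_crm {k D : ℕ} (c : Fin (k + 2) → ℂ) (b : (Fin (k + 2) → Fin D) → ℂ) (hD : 1 ≤ D) :
    (crd c (∑ x, b x • crm x)).natDegree < D := by
  rw [map_sum]
  refine lt_of_le_of_lt (Polynomial.natDegree_sum_le_of_forall_le (n := D - 1) _ _
    fun x _ => ?_) (by omega)
  rw [map_smul]
  refine (Polynomial.natDegree_smul_le _ _).trans ?_
  unfold crm crd
  rw [aeval_monomial, map_one, one_mul, Finsupp.prod_fintype _ _ (by simp), Fin.prod_univ_succ]
  simp only [if_true]
  refine Polynomial.natDegree_mul_le.trans ?_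
  have h1 : (∏ i : Fin (k + 1), (if (i.succ : Fin (k + 2)) = 0 then (Polynomial.X : Polynomial ℂ)
      else Polynomial.C (c i.succ)) ^
        ((Finsupp.equivFunOnFinite.symm fun i => ((x i : Fin D) : ℕ)) i.succ)).natDegree ≤ 0 := by
    have h2 : (∏ i : Fin (k + 1), (if (i.succ : Fin (k + 2)) = 0 then (Polynomial.X : Polynomial ℂ)
      else Polynomial.C (c i.succ)) ^
        ((Finsupp.equivFunOnFinite.symm fun i => ((x i : Fin D) : ℕ)) i.succ)) =
        Polynomial.C (∏ i : Fin (k + 1), (c i.succ) ^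
        ((Finsupp.equivFunOnFinite.symm fun i => ((x i : Fin D) : ℕ)) i.succ)) := by
      rw [map_prod]
      refine Finset.prod_congr rfl fun i _ => ?_
      rw [if_neg (Fin.succ_ne_zero i), Polynomial.C_pow]
    rw [h2, Polynomial.natDegree_C]
  have h3 : ((Polynomial.X : Polynomial ℂ) ^
      ((Finsupp.equivFunOnFinite.symm fun i => ((x i : Fin D) : ℕ)) 0)).natDegree ≤ D - 1 := by
    rw [Polynomial.natDegree_X_pow]
    change ((x 0 : Fin D) : ℕ) ≤ D - 1
    have := (x 0).2
    omega
  omega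

theorem crd_eval {k : ℕ} (z : Fin (k + 2) → ℂ) (B : MvPolynomial (Fin (k + 2)) ℂ) :
    (crd z B).eval (z 0) = eval z B := by
  have h : (Polynomial.evalRingHom (z 0)).comp (crd z).toRingHom = eval z := by
    apply MvPolynomial.ringHom_ext
    · intro c
      simp only [RingHom.comp_apply, AlgHom.toRingHom_eq_coe, RingHom.coe_coe]
      unfold crd
      rw [aeval_C, eval_C]
      simp
    · intro i
      simp only [RingHom.comp_apply, AlgHom.toRingHom_eq_coe, RingHom.coe_coe]
      unfold crd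
      rw [aeval_X, eval_X]
      by_cases hi : i = 0
      · rw [if_pos hi, hi]; simp
      · rw [if_neg hi]; simp
  exact congrArg (fun φ => φ B) h |>.trans rfl

theorem cr_special {N k D : ℕ} (hD : 1 ≤ D) {f g : MvPolynomial (Fin N) ℂ} (h : IsRelPrime f g)
    (hf0 : f ≠ 0) (hf : f.IsHomogeneous D) :
    ∃ g0 : Fin N × Fin (k + 2) → ℂ, LinearIndependent ℂ (crW (D := D) (sub g0 f) (sub g0 g)) := by
  obtain ⟨e, he⟩ : ∃ e, eval e f ≠ 0 := by
    by_contra hne
    push Not at hne
    exact hf0 (MvPolynomial.funext fun x => by rw [hne x, map_zero])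
  obtain ⟨ρ, hρ, hco⟩ := cr_line hD h hf0 hf he
  obtain ⟨y, hy⟩ : ∃ y, eval y ρ ≠ 0 := by
    by_contra hne
    push Not at hne
    exact hρ (MvPolynomial.funext fun x => by rw [hne x, map_zero])
  refine ⟨crg e y, ?_⟩
  rw [Fintype.linearIndependent_iff]
  intro c hc
  rw [crW_sum] at hc
  set A := ∑ x, c (Sum.inl x) • crm x with hA
  set B := ∑ x, c (Sum.inr x) • crm x with hB
  let R : MvPolynomial (Fin (k + 2)) ℂ := aeval (fun i => C (y i) * X 1) ρ
  have hRe : ∀ z, eval z R = eval (fun i => y i * z 1) ρ := by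
    intro z
    have h1 : (eval z).comp (aeval (fun i => C (y i) * X (1 : Fin (k + 2))) :
        MvPolynomial (Fin N) ℂ →ₐ[ℂ] MvPolynomial (Fin (k + 2)) ℂ).toRingHom =
        eval (fun i => y i * z 1) := by
      apply MvPolynomial.ringHom_ext
      · intro c
        simp only [RingHom.comp_apply, AlgHom.toRingHom_eq_coe, RingHom.coe_coe]
        rw [aeval_C, eval_C]
        simp
      · intro i
        simp only [RingHom.comp_apply, AlgHom.toRingHom_eq_coe, RingHom.coe_coe]
        rw [aeval_X, eval_X]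
        simp
    exact congrArg (fun φ => φ ρ) h1 |>.trans rfl
  have hR : R ≠ 0 := by
    intro h0
    have h1 := hRe (fun _ => 1)
    rw [h0, map_zero] at h1
    apply hy
    rw [h1]
    simp
  have hB0 : B = 0 := by
    have h1 : B * R = 0 := by
      apply MvPolynomial.funext
      intro z
      rw [map_mul, map_zero, hRe]
      by_cases hz : eval (fun i => y i * z 1) ρ = 0
      · rw [hz, mul_zero]
      · have hcop := hco _ hz
        have h2 := congrArg (crd z) hc
        rw [map_add, map_mul, map_mul, map_zero, crd_sub, crd_sub] at h2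
        have h3 : crL e (fun i => y i * z 1) f ∣ crd z B := by
          apply hcop.dvd_of_dvd_mul_right
          exact ⟨-(crd z A), by linear_combination h2⟩
        have h4 : crd z B = 0 := by
          by_contra hne
          have h5 := Polynomial.natDegree_le_of_dvd h3 hne
          rw [crL_natDegree e _ hf he] at h5
          have h6 := crd_crm z (fun x => c (Sum.inr x)) hD
          rw [← hB] at h6
          omega
        rw [← crd_eval z B, h4]
        simp
    exact (mul_eq_zero.1 h1).resolve_right hR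
  have hF0 : sub (crg (k := k) e y) f ≠ 0 := by
    intro h0
    have h1 := crd_sub e y (0 : Fin (k + 2) → ℂ) f
    rw [h0, map_zero] at h1
    have h2 := crL_natDegree e (fun i => y i * (0 : Fin (k + 2) → ℂ) 1) hf he
    rw [← h1, Polynomial.natDegree_zero] at h2
    omega
  have hA0 : A = 0 := by
    rw [hB0, zero_mul, add_zero] at hc
    exact (mul_eq_zero.1 hc).resolve_right hF0
  intro i
  rcases i with x | x
  · have := crm_sum_coeff (fun x => c (Sum.inl x)) x
    rw [← hA, hA0, coeff_zero] at this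
    exact this.symm
  · have := crm_sum_coeff (fun x => c (Sum.inr x)) x
    rw [← hB, hB0, coeff_zero] at this
    exact this.symm

theorem cr_sub_totalDegree {N n D : ℕ} (g : Fin N × Fin n → ℂ) {f : MvPolynomial (Fin N) ℂ}
    (hf : f.IsHomogeneous D) : (sub g f).totalDegree ≤ D := by
  have h1 : (sub g f).IsHomogeneous D := by
    have h2 : ∀ i, (∑ j, C (g (i, j)) * X j : MvPolynomial (Fin n) ℂ).IsHomogeneous 1 := by
      intro i
      refine IsHomogeneous.sum _ _ _ fun j _ => ?_
      exact (isHomogeneous_C_mul_X _ _)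
    have h3 := hf.aeval (fun i => ∑ j, C (g (i, j)) * X j) h2
    rw [one_mul] at h3
    exact h3
  exact h1.totalDegree_le

theorem cr_pair {N n D : ℕ} (hn : 2 ≤ n) (hD : 1 ≤ D) {f g : MvPolynomial (Fin N) ℂ}
    (h : IsRelPrime f g) (hf0 : f ≠ 0) (hf : f.IsHomogeneous D) (hg : g.IsHomogeneous D) :
    Gen (fun s : Fin N × Fin n → ℂ => ∀ d, d ∣ sub s f → d ∣ sub s g → IsUnit d) := by
  classical
  obtain ⟨k, rfl⟩ : ∃ k, n = k + 2 := ⟨n - 2, by omega⟩
  obtain ⟨g0, hg0⟩ := cr_special (k := k) hD h hf0 hf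
  let W : (Fin (k + 2) → Fin D) ⊕ (Fin (k + 2) → Fin D) →
      MvPolynomial (Fin (k + 2)) (MvPolynomial (Fin N × Fin (k + 2)) ℂ) :=
    Sum.elim (fun x => monomial (Finsupp.equivFunOnFinite.symm fun i => (x i : ℕ)) 1 * subU f)
      (fun x => monomial (Finsupp.equivFunOnFinite.symm fun i => (x i : ℕ)) 1 * subU g)
  have hW : ∀ s, (fun i => (W i).map (eval s)) = crW (D := D) (sub s f) (sub s g) := by
    intro s
    funext i
    rcases i with x | x
    · simp only [W, Sum.elim_inl, crW]
      rw [map_mul, map_monomial, subU_map, map_one]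
      rfl
    · simp only [W, Sum.elim_inr, crW]
      rw [map_mul, map_monomial, subU_map, map_one]
      rfl
  obtain ⟨Φ, hΦ, hΦ'⟩ := cr_generic W g0 (by rw [hW]; exact hg0)
  refine ⟨Φ, hΦ, fun s hs d h1 h2 => ?_⟩
  have h3 := hΦ' s hs
  rw [hW] at h3
  exact cr_unit hD (cr_sub_totalDegree s hf) (cr_sub_totalDegree s hg) h3 h1 h2

/-- two relatively prime elements -/
theorem cr_two {N : ℕ} (V : Submodule ℂ (MvPolynomial (Fin N) ℂ)) (hc : Cop V) :
    ∃ f ∈ V, ∃ g ∈ V, f ≠ 0 ∧ IsRelPrime f g := by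
  classical
  obtain ⟨f, hfV, hf0⟩ : ∃ f ∈ V, f ≠ 0 := by
    by_contra hne
    push Not at hne
    have := hc 0 (fun v hv => by rw [hne v hv])
    exact not_isUnit_zero this
  let s : Finset (Submodule ℂ V) := (UniqueFactorizationMonoid.factors f).toFinset.image
    (fun h => ((Ideal.span {h}).restrictScalars ℂ).comap V.subtype)
  have hs : ⊤ ∉ s := by
    intro h1
    obtain ⟨p, hp, hp'⟩ := Finset.mem_image.1 h1
    have hirr := UniqueFactorizationMonoid.irreducible_of_factor p (Multiset.mem_toFinset.1 hp)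
    apply hirr.not_isUnit
    apply hc
    intro v hv
    have h2 : (⟨v, hv⟩ : V) ∈ ((Ideal.span {p}).restrictScalars ℂ).comap V.subtype := by
      rw [hp']; trivial
    rw [Submodule.mem_comap, Submodule.restrictScalars_mem, Submodule.subtype_apply,
      Ideal.mem_span_singleton] at h2
    exact h2
  have h3 := Subspace.biUnion_ne_univ_of_top_notMem hs
  obtain ⟨g, hg⟩ := (Set.ne_univ_iff_exists_notMem _).1 h3
  refine ⟨f, hfV, g.1, g.2, hf0, ?_⟩
  intro d h1 h2
  by_contra hd
  have hd0 : d ≠ 0 := by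
    rintro rfl
    exact hf0 (zero_dvd_iff.1 h1)
  obtain ⟨p, hp, hpd⟩ := WfDvdMonoid.exists_irreducible_factor hd hd0
  obtain ⟨p', hp', hass⟩ := UniqueFactorizationMonoid.exists_mem_factors_of_dvd hf0 hp
    (hpd.trans h1)
  apply hg
  rw [Set.mem_iUnion₂]
  refine ⟨_, Finset.mem_image_of_mem _ (Multiset.mem_toFinset.2 hp'), ?_⟩
  change g ∈ ((Ideal.span {p'}).restrictScalars ℂ).comap V.subtype
  rw [Submodule.mem_comap, Submodule.restrictScalars_mem, Submodule.subtype_apply,
    Ideal.mem_span_singleton]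
  exact (hass.symm.dvd).trans (hpd.trans h2)

/-- Module CR. -/
theorem cop_restrict {N n D : ℕ} (hn : 2 ≤ n) (V : Submodule ℂ (MvPolynomial (Fin N) ℂ))
    (hV : V ≤ homogeneousSubmodule (Fin N) ℂ D) (hc : Cop V) :
    Gen (fun g : Fin N × Fin n → ℂ => Cop (V.map (sub g).toLinearMap)) := by
  obtain ⟨f, hfV, g, hgV, hf0, hfg⟩ := cr_two V hc
  have hf : f.IsHomogeneous D := hV hfV
  have hg : g.IsHomogeneous D := hV hgV
  rcases Nat.eq_zero_or_pos D with hD | hD
  · refine ⟨1, one_ne_zero, fun s _ d hd => ?_⟩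
    subst hD
    have h1 := hd (sub s f) ⟨f, hfV, rfl⟩
    have h2 : f.totalDegree = 0 := Nat.le_zero.1 hf.totalDegree_le
    rw [totalDegree_eq_zero_iff_eq_C] at h2
    have h3 : coeff 0 f ≠ 0 := by
      intro h4
      rw [h4, C_0] at h2
      exact hf0 h2
    rw [h2] at h1
    unfold sub at h1
    rw [aeval_C] at h1
    exact isUnit_of_dvd_unit h1 ((isUnit_iff_ne_zero.2 h3).map _)
  · obtain ⟨Φ, hΦ, hΦ'⟩ := cr_pair (N := N) (n := n) hn hD hfg hf0 hf hg
    refine ⟨Φ, hΦ, fun s hs d hd => ?_⟩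
    exact hΦ' s hs d (hd _ ⟨f, hfV, rfl⟩) (hd _ ⟨g, hgV, rfl⟩)

end Pool.Agent.Lib_helper26.Ebe
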