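import Pool.Agent.Lib_helper26.Ebe.Ker
import Pool.Agent.Lib_helper52.Ebe.CR

/-!
MP_ce7760_an, restriction to generic isometries.
-/

set_option autoImplicit false

namespace Pool.Agent.Lib_helper26.Ebe

open MvPolynomial Pool.Agent.Lib_helper26.SOS Module

/-! ### Compositions of substitutions -/

section comp

variable {n k l : ℕ}

/-- Product of matrices, as functions on the index pairs. -/
def mulg {n k l : ℕ} (g : Fin n × Fin k → ℂ) (h : Fin k × Fin l → ℂ) : Fin n × Fin l → ℂ :=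
  fun x => ∑ m, g (x.1, m) * h (m, x.2)

/-- A square matrix as a function on the index pairs. -/
def toG {k : ℕ} (T : Matrix (Fin k) (Fin k) ℂ) : Fin k × Fin k → ℂ := fun x => T x.1 x.2

/-- Product with a square matrix on the right. -/
def mulr {n k : ℕ} (g : Fin n × Fin k → ℂ) (T : Matrix (Fin k) (Fin k) ℂ) :
    Fin n × Fin k → ℂ := fun x => ∑ l, g (x.1, l) * T l x.2

theorem mulr_eq (g : Fin n × Fin k → ℂ) (T : Matrix (Fin k) (Fin k) ℂ) :
    mulr g T = mulg g (toG T) := rfl

theorem sub_X (g : Fin n × Fin k → ℂ) (i : Fin n) :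
    sub g (X i) = ∑ j, C (g (i, j)) * X j := by
  rw [sub, aeval_X]

theorem sub_C (g : Fin n × Fin k → ℂ) (c : ℂ) : sub g (C c) = C c := by
  rw [sub, aeval_C, algebraMap_eq]

theorem sub_mulg (g : Fin n × Fin k → ℂ) (h : Fin k × Fin l → ℂ) :
    sub (mulg g h) = (sub h).comp (sub g) := by
  apply MvPolynomial.algHom_ext
  intro i
  rw [AlgHom.comp_apply, sub_X, sub_X, map_sum]
  simp_rw [map_mul, sub_C, sub_X, mulg, map_sum, Finset.sum_mul, Finset.mul_sum]
  rw [Finset.sum_comm]
  refine Finset.sum_congr rfl fun m _ => Finset.sum_congr rfl fun j _ => ?_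
  rw [map_mul, mul_assoc]

theorem sub_one : sub (toG (1 : Matrix (Fin k) (Fin k) ℂ)) = AlgHom.id ℂ _ := by
  apply MvPolynomial.algHom_ext
  intro i
  rw [sub_X, AlgHom.id_apply, Finset.sum_eq_single i]
  · simp [toG]
  · intro j _ hj
    simp [toG, Matrix.one_apply_ne' hj]
  · simp

theorem mulg_toG (S T : Matrix (Fin k) (Fin k) ℂ) : mulg (toG S) (toG T) = toG (S * T) := by
  funext x
  simp [mulg, toG, Matrix.mul_apply]

theorem mulg_assoc {r : ℕ} (g : Fin n × Fin k → ℂ) (h : Fin k × Fin l → ℂ)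
    (h' : Fin l × Fin r → ℂ) : mulg (mulg g h) h' = mulg g (mulg h h') := by
  funext x
  simp only [mulg, Finset.sum_mul, Finset.mul_sum]
  rw [Finset.sum_comm]
  refine Finset.sum_congr rfl fun m _ => Finset.sum_congr rfl fun j _ => ?_
  rw [mul_assoc]

theorem mulg_one (g : Fin n × Fin k → ℂ) :
    mulg g (toG (1 : Matrix (Fin k) (Fin k) ℂ)) = g := by
  funext x
  rw [mulg, Finset.sum_eq_single x.2]
  · simp [toG]
  · intro j _ hj
    simp [toG, Matrix.one_apply_ne hj]
  · simp

theorem one_mulg (g : Fin k × Fin n → ℂ) :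
    mulg (toG (1 : Matrix (Fin k) (Fin k) ℂ)) g = g := by
  funext x
  rw [mulg, Finset.sum_eq_single x.1]
  · simp [toG]
  · intro j _ hj
    simp [toG, Matrix.one_apply_ne' hj]
  · simp

theorem mv_mulg (g : Fin n × Fin k → ℂ) (h : Fin k × Fin l → ℂ) (x : Fin l → ℂ) :
    mv (mulg g h) x = mv g (mv h x) := by
  funext i
  simp only [mv, mulg, Finset.sum_mul, Finset.mul_sum]
  rw [Finset.sum_comm]
  refine Finset.sum_congr rfl fun m _ => Finset.sum_congr rfl fun j _ => ?_
  rw [mul_assoc]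

theorem map_sub_mulg (V : Submodule ℂ (MvPolynomial (Fin n) ℂ)) (g : Fin n × Fin k → ℂ)
    (h : Fin k × Fin l → ℂ) :
    V.map (sub (mulg g h)).toLinearMap =
      (V.map (sub g).toLinearMap).map (sub h).toLinearMap := by
  rw [sub_mulg, AlgHom.comp_toLinearMap, Submodule.map_comp]

/-- Substitution of an invertible matrix. -/
noncomputable def subE {k : ℕ} (T : Matrix (Fin k) (Fin k) ℂ) (hT : IsUnit T.det) :
    MvPolynomial (Fin k) ℂ ≃ₐ[ℂ] MvPolynomial (Fin k) ℂ :=
  AlgEquiv.ofAlgHom (sub (toG T)) (sub (toG T⁻¹))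
    (by rw [← sub_mulg, mulg_toG, Matrix.nonsing_inv_mul T hT, sub_one])
    (by rw [← sub_mulg, mulg_toG, Matrix.mul_nonsing_inv T hT, sub_one])

theorem subE_apply (T : Matrix (Fin k) (Fin k) ℂ) (hT : IsUnit T.det)
    (f : MvPolynomial (Fin k) ℂ) : subE T hT f = sub (toG T) f := rfl

theorem subE_toLinearMap (T : Matrix (Fin k) (Fin k) ℂ) (hT : IsUnit T.det) :
    ((subE T hT).toLinearEquiv : MvPolynomial (Fin k) ℂ →ₗ[ℂ] MvPolynomial (Fin k) ℂ) =
      (sub (toG T)).toLinearMap := rfl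

theorem Cop.map_unit {W : Submodule ℂ (MvPolynomial (Fin k) ℂ)} (hW : Cop W)
    {T : Matrix (Fin k) (Fin k) ℂ} (hT : IsUnit T.det) :
    Cop (W.map (sub (toG T)).toLinearMap) := by
  intro h hh
  have h1 : IsUnit ((subE T hT).symm h) := by
    apply hW
    intro v hv
    have h2 := hh (sub (toG T) v) ⟨v, hv, rfl⟩
    have h3 := map_dvd (subE T hT).symm h2
    rw [← subE_apply T hT, AlgEquiv.symm_apply_apply] at h3
    exact h3
  have h4 := h1.map (subE T hT)
  rwa [AlgEquiv.apply_symm_apply] at h4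

theorem Cop.mulr {V : Submodule ℂ (MvPolynomial (Fin n) ℂ)} {g : Fin n × Fin k → ℂ}
    (h : Cop (V.map (sub g).toLinearMap)) {T : Matrix (Fin k) (Fin k) ℂ} (hT : IsUnit T.det) :
    Cop (V.map (sub (mulr g T)).toLinearMap) := by
  rw [mulr_eq, map_sub_mulg]
  exact h.map_unit hT

theorem finrank_mulr (V : Submodule ℂ (MvPolynomial (Fin n) ℂ)) (g : Fin n × Fin k → ℂ)
    {T : Matrix (Fin k) (Fin k) ℂ} (hT : IsUnit T.det) :
    finrank ℂ (V.map (sub (mulr g T)).toLinearMap) =
      finrank ℂ (V.map (sub g).toLinearMap) := by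
  rw [mulr_eq, map_sub_mulg, ← subE_toLinearMap T hT]
  exact LinearEquiv.finrank_map_eq _ _

theorem rk_map_unit (W : Submodule ℂ (MvPolynomial (Fin k) ℂ))
    {T : Matrix (Fin k) (Fin k) ℂ} (hT : IsUnit T.det) (l : ℕ) :
    rk (W.map (sub (toG T)).toLinearMap) l = rk W l := by
  unfold rk
  congr 1
  ext r
  constructor
  · rintro ⟨g, rfl⟩
    exact ⟨mulg (toG T) g, by rw [map_sub_mulg]⟩
  · rintro ⟨g, rfl⟩
    refine ⟨mulg (toG T⁻¹) g, ?_⟩
    rw [← map_sub_mulg, ← mulg_assoc, mulg_toG, Matrix.mul_nonsing_inv T hT, one_mulg]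

theorem rk_mulr (V : Submodule ℂ (MvPolynomial (Fin n) ℂ)) (g : Fin n × Fin k → ℂ)
    {T : Matrix (Fin k) (Fin k) ℂ} (hT : IsUnit T.det) (l : ℕ) :
    rk (V.map (sub (mulr g T)).toLinearMap) l = rk (V.map (sub g).toLinearMap) l := by
  rw [mulr_eq, map_sub_mulg, rk_map_unit _ hT]

end comp

/-! ### Generic isometries -/

section isom

variable {n k : ℕ}

/-- The columns of `g` are orthonormal. -/
def isom {n k : ℕ} (g : Fin n × Fin k → ℂ) : Prop :=
  ∀ j l, ∑ i, g (i, j) * (starRingEnd ℂ) (g (i, l)) = if j = l then 1 else 0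

theorem polar_fintype {σ : Type*} [Fintype σ] (P : MvPolynomial (σ ⊕ σ) ℂ)
    (h : ∀ z : σ → ℂ, eval (Sum.elim z (fun k => (starRingEnd ℂ) (z k))) P = 0) : P = 0 := by
  classical
  let e := Fintype.equivFin σ
  have h1 : rename (Sum.map e e) P = 0 := by
    apply polar
    intro z
    rw [eval_rename]
    have : Sum.elim z (fun k => (starRingEnd ℂ) (z k)) ∘ Sum.map e e =
        Sum.elim (z ∘ e) (fun k => (starRingEnd ℂ) ((z ∘ e) k)) := by
      funext i
      rcases i with i | i <;> rfl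
    rw [this]
    exact h _
  apply rename_injective _ (Sum.map_injective.mpr ⟨e.injective, e.injective⟩)
  rw [h1, map_zero]

/-- The determinant of the top square block. -/
noncomputable def topdet {n k : ℕ} (hk : k ≤ n) : MvPolynomial (Fin n × Fin k) ℂ :=
  (Matrix.of fun i j : Fin k => (X (Fin.castLE hk i, j) : MvPolynomial (Fin n × Fin k) ℂ)).det

theorem eval_topdet (hk : k ≤ n) (g : Fin n × Fin k → ℂ) :
    eval g (topdet hk) = (Matrix.of fun i j : Fin k => g (Fin.castLE hk i, j)).det := by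
  rw [topdet, RingHom.map_det]
  congr 1
  ext i j
  simp

theorem topdet_ne_zero (hk : k ≤ n) : topdet hk ≠ 0 := by
  intro h
  have h1 := eval_topdet hk (fun x => if x.1 = Fin.castLE hk x.2 then 1 else 0)
  rw [h, map_zero] at h1
  have h2 : (Matrix.of fun i j : Fin k => if Fin.castLE hk i = Fin.castLE hk j then
      (1 : ℂ) else 0) = 1 := by
    ext i j
    rw [Matrix.of_apply, Matrix.one_apply]
    simp [Fin.castLE_inj]
  rw [h2, Matrix.det_one] at h1
  exact zero_ne_one h1

theorem exists_unit_isom (hk : k ≤ n) (g : Fin n × Fin k → ℂ) (hg : eval g (topdet hk) ≠ 0) :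
    ∃ T : Matrix (Fin k) (Fin k) ℂ, IsUnit T.det ∧ isom (mulr g T) := by
  classical
  let G : Matrix (Fin n) (Fin k) ℂ := Matrix.of fun i j => g (i, j)
  rw [eval_topdet] at hg
  have hinj : ∀ v : Fin k → ℂ, G.mulVec v = 0 → v = 0 := by
    intro v hv
    by_contra hne
    apply hg
    apply Matrix.exists_mulVec_eq_zero_iff.mp
    refine ⟨v, hne, ?_⟩
    funext i
    exact congrFun hv (Fin.castLE hk i)
  let H := G.conjTranspose * G
  obtain ⟨B, hB⟩ : ∃ B : Matrix (Fin k) (Fin k) ℂ, H = B.conjTranspose * B := by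
    open scoped ComplexOrder MatrixOrder Matrix.Norms.L2Operator in
    exact CStarAlgebra.nonneg_iff_eq_star_mul_self.mp
      (Matrix.posSemidef_conjTranspose_mul_self G).nonneg
  have hBdet : IsUnit B.det := by
    rw [isUnit_iff_ne_zero]
    intro h0
    obtain ⟨v, hv0, hv⟩ := Matrix.exists_mulVec_eq_zero_iff.mpr h0
    apply hv0
    apply hinj
    have h1 : H.mulVec v = 0 := by
      rw [hB, ← Matrix.mulVec_mulVec, hv, Matrix.mulVec_zero]
    have h2 : (star (G.mulVec v)) ⬝ᵥ (G.mulVec v) = 0 := by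
      rw [Matrix.star_mulVec, ← Matrix.dotProduct_mulVec, Matrix.mulVec_mulVec, h1,
        dotProduct_zero]
    open scoped ComplexOrder in
    exact dotProduct_star_self_eq_zero.mp h2
  refine ⟨B⁻¹, ?_, ?_⟩
  · exact Matrix.isUnit_nonsing_inv_det B hBdet
  · have h3 : (G * B⁻¹).conjTranspose * (G * B⁻¹) = 1 := by
      rw [Matrix.conjTranspose_mul, Matrix.mul_assoc, ← Matrix.mul_assoc G.conjTranspose]
      change (B⁻¹).conjTranspose * (H * B⁻¹) = 1
      rw [hB, Matrix.mul_assoc, Matrix.mul_nonsing_inv B hBdet, Matrix.mul_one,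
        ← Matrix.conjTranspose_mul, Matrix.mul_nonsing_inv B hBdet, Matrix.conjTranspose_one]
    intro j l
    have h4 := congrFun (congrFun h3 l) j
    rw [Matrix.mul_apply, Matrix.one_apply] at h4
    calc ∑ i, mulr g B⁻¹ (i, j) * (starRingEnd ℂ) (mulr g B⁻¹ (i, l))
        = ∑ i, (G * B⁻¹).conjTranspose l i * (G * B⁻¹) i j := by
          refine Finset.sum_congr rfl fun i _ => ?_
          rw [mul_comm]
          rfl
      _ = if j = l then 1 else 0 := by
          rw [h4]
          simp only [eq_comm]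

theorem exists_isom (hk : k ≤ n) (Φ : MvPolynomial (Fin n × Fin k) ℂ) (hΦ : Φ ≠ 0)
    (Ψ : MvPolynomial ((Fin n × Fin k) ⊕ (Fin n × Fin k)) ℂ) (hΨ : Ψ ≠ 0) :
    ∃ g, eval g Φ ≠ 0 ∧ eval (Sum.elim g (fun x => (starRingEnd ℂ) (g x))) Ψ ≠ 0 ∧
      ∃ T : Matrix (Fin k) (Fin k) ℂ, IsUnit T.det ∧ isom (mulr g T) := by
  have hne : rename Sum.inl (Φ * topdet hk) * Ψ ≠ 0 := by
    refine mul_ne_zero ?_ hΨ
    intro h
    apply mul_ne_zero hΦ (topdet_ne_zero hk)
    apply rename_injective _ (Sum.inl_injective (β := Fin n × Fin k))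
    rw [h, map_zero]
  by_contra hc
  push Not at hc
  apply hne
  apply polar_fintype
  intro g
  by_contra hg
  rw [map_mul, eval_rename, Sum.elim_comp_inl, map_mul] at hg
  have h1 := left_ne_zero_of_mul (left_ne_zero_of_mul hg)
  have h2 := right_ne_zero_of_mul (left_ne_zero_of_mul hg)
  have h3 := right_ne_zero_of_mul hg
  obtain ⟨T, hT, hT'⟩ := exists_unit_isom hk g h2
  exact hc g h1 h3 T hT hT'

end isom

/-! ### Generic ranks -/

section rank

variable {n k : ℕ}

theorem rk_map_le (V : Submodule ℂ (MvPolynomial (Fin n) ℂ)) [FiniteDimensional ℂ V]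
    (g : Fin n × Fin k → ℂ) (l : ℕ) : rk (V.map (sub g).toLinearMap) l ≤ rk V l := by
  obtain ⟨h, hh⟩ := exists_rk (V.map (sub g).toLinearMap) l
  rw [← hh, ← map_sub_mulg]
  exact finrank_map_le_rk V _

theorem gen_rk_map (V : Submodule ℂ (MvPolynomial (Fin n) ℂ)) [FiniteDimensional ℂ V] {l : ℕ}
    (hl : l ≤ k) :
    Gen (fun g : Fin n × Fin k → ℂ => rk (V.map (sub g).toLinearMap) l = rk V l) := by
  obtain ⟨Φ, h0, hΦ⟩ := gen_rk V l
  let f : Fin n × Fin l → Fin n × Fin k := Prod.map id (Fin.castLE hl)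
  have hf : Function.Injective f :=
    Function.injective_id.prodMap (Fin.castLE_injective hl)
  refine ⟨rename f Φ, ?_, fun g hg => ?_⟩
  · intro h
    apply h0
    apply rename_injective _ hf
    rw [h, map_zero]
  · rw [eval_rename] at hg
    have h1 := hΦ _ hg
    have h2 : g ∘ f = mulg g (fun x : Fin k × Fin l => if x.1 = Fin.castLE hl x.2
        then 1 else 0) := by
      funext x
      rw [mulg, Finset.sum_eq_single (Fin.castLE hl x.2)]
      · simp only [if_true, mul_one]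
        rfl
      · intro j _ hj
        simp [hj]
      · simp
    rw [h2, map_sub_mulg] at h1
    apply le_antisymm (rk_map_le V g l)
    rw [← h1]
    exact finrank_map_le_rk _ _

theorem gen_rk_map_all (V : Submodule ℂ (MvPolynomial (Fin n) ℂ)) [FiniteDimensional ℂ V]
    (k : ℕ) :
    Gen (fun g : Fin n × Fin k → ℂ =>
      ∀ l ≤ k, rk (V.map (sub g).toLinearMap) l = rk V l) := by
  have key : ∀ m : ℕ, Gen (fun g : Fin n × Fin k → ℂ =>
      ∀ l < m, l ≤ k → rk (V.map (sub g).toLinearMap) l = rk V l) := by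
    intro m
    induction m with
    | zero => exact Gen.of_forall fun g l hl => absurd hl (Nat.not_lt_zero l)
    | succ m ih =>
      by_cases hm : m ≤ k
      · refine (ih.and (gen_rk_map V hm)).mono fun g hg l hl hlk => ?_
        rcases Nat.lt_succ_iff_lt_or_eq.mp hl with h | h
        · exact hg.1 l h hlk
        · rw [h]
          exact hg.2
      · refine ih.mono fun g hg l hl hlk => hg l ?_ hlk
        omega
  exact (key (k + 1)).mono fun g hg l hl => hg l (Nat.lt_succ_of_le hl) hl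

end rank

/-! ### Restriction of Hermitian polynomials -/

section res

variable {n k : ℕ}

/-- The conjugate matrix. -/
noncomputable def cg {n k : ℕ} (g : Fin n × Fin k → ℂ) : Fin n × Fin k → ℂ :=
  fun x => (starRingEnd ℂ) (g x)

/-- Substitution of `g` in the first and of the conjugate of `g` in the second variables. -/
noncomputable def resH {n k : ℕ} (g : Fin n × Fin k → ℂ) :
    MvPolynomial (Fin n ⊕ Fin n) ℂ →ₐ[ℂ] MvPolynomial (Fin k ⊕ Fin k) ℂ :=
  aeval (Sum.elim (fun i => ∑ j, C (g (i, j)) * X (Sum.inl j))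
    (fun i => ∑ j, C (cg g (i, j)) * X (Sum.inr j)))

/-- Substitution of `g` in the first and of the conjugate of `g` in the second variables. -/
noncomputable def resA {n k : ℕ} (g : Fin n × Fin k → ℂ) (A : MvPolynomial (Fin n ⊕ Fin n) ℂ) :
    MvPolynomial (Fin k ⊕ Fin k) ℂ := resH g A

theorem eval_resA (g : Fin n × Fin k → ℂ) (A : MvPolynomial (Fin n ⊕ Fin n) ℂ)
    (x y : Fin k → ℂ) :
    eval (Sum.elim x y) (resA g A) = eval (Sum.elim (mv g x) (mv (cg g) y)) A := by
  have : ((eval (Sum.elim x y)).comp ((resH g : MvPolynomial (Fin n ⊕ Fin n) ℂ →ₐ[ℂ]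
      MvPolynomial (Fin k ⊕ Fin k) ℂ) :
      MvPolynomial (Fin n ⊕ Fin n) ℂ →+* MvPolynomial (Fin k ⊕ Fin k) ℂ)) =
      eval (Sum.elim (mv g x) (mv (cg g) y)) := by
    apply MvPolynomial.ringHom_ext
    · intro r
      simp [resH, MvPolynomial.algebraMap_eq]
    · intro i
      rcases i with i | i <;> simp [resH, mv]
  exact RingHom.congr_fun this A

theorem resH_inl (g : Fin n × Fin k → ℂ) (p : MvPolynomial (Fin n) ℂ) :
    resH g (rename Sum.inl p) = rename Sum.inl (sub g p) := by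
  have : (resH g).comp (rename Sum.inl) = (rename Sum.inl).comp (sub g) := by
    apply MvPolynomial.algHom_ext
    intro i
    rw [AlgHom.comp_apply, AlgHom.comp_apply, rename_X, sub_X, map_sum]
    simp [resH]
  exact AlgHom.congr_fun this p

theorem resH_inr (g : Fin n × Fin k → ℂ) (p : MvPolynomial (Fin n) ℂ) :
    resH g (rename Sum.inr p) = rename Sum.inr (sub (cg g) p) := by
  have : (resH g).comp (rename Sum.inr) = (rename Sum.inr).comp (sub (cg g)) := by
    apply MvPolynomial.algHom_ext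
    intro i
    rw [AlgHom.comp_apply, AlgHom.comp_apply, rename_X, sub_X, map_sum]
    simp [resH]
  exact AlgHom.congr_fun this p

theorem sub_cj (g : Fin n × Fin k → ℂ) (p : MvPolynomial (Fin n) ℂ) :
    sub (cg g) (cj p) = cj (sub g p) := by
  have : ((sub (cg g) : MvPolynomial (Fin n) ℂ →ₐ[ℂ] MvPolynomial (Fin k) ℂ) :
      MvPolynomial (Fin n) ℂ →+* MvPolynomial (Fin k) ℂ).comp
        (MvPolynomial.map (starRingEnd ℂ)) =
      (MvPolynomial.map (starRingEnd ℂ)).comp
        ((sub g : MvPolynomial (Fin n) ℂ →ₐ[ℂ] MvPolynomial (Fin k) ℂ) :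
          MvPolynomial (Fin n) ℂ →+* MvPolynomial (Fin k) ℂ) := by
    apply MvPolynomial.ringHom_ext
    · intro r
      simp
    · intro i
      simp [sub_X, cg]
  exact RingHom.congr_fun this p

theorem resH_q {g : Fin n × Fin k → ℂ} (hg : isom g) : resH g (q n) = q k := by
  have h1 : resH g (q n) = ∑ i, (∑ j, C (g (i, j)) * X (Sum.inl j)) *
      (∑ l, C (cg g (i, l)) * X (Sum.inr l)) := by
    simp [q, resH]
  rw [h1, q]
  have h2 : ∀ j l : Fin k, ∑ i, C (g (i, j)) * C (cg g (i, l)) =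
      (C (if j = l then 1 else 0) : MvPolynomial (Fin k ⊕ Fin k) ℂ) := by
    intro j l
    rw [← hg j l, map_sum]
    exact Finset.sum_congr rfl fun i _ => by rw [cg, map_mul]
  calc ∑ i, (∑ j, C (g (i, j)) * X (Sum.inl j)) * (∑ l, C (cg g (i, l)) * X (Sum.inr l))
      = ∑ i, ∑ j, ∑ l, (C (g (i, j)) * C (cg g (i, l))) * (X (Sum.inl j) * X (Sum.inr l)) := by
        refine Finset.sum_congr rfl fun i _ => ?_
        rw [Finset.sum_mul_sum]
        refine Finset.sum_congr rfl fun j _ => Finset.sum_congr rfl fun l _ => ?_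
        ring
    _ = ∑ j, ∑ l, (∑ i, C (g (i, j)) * C (cg g (i, l))) * (X (Sum.inl j) * X (Sum.inr l)) := by
        rw [Finset.sum_comm]
        refine Finset.sum_congr rfl fun j _ => ?_
        rw [Finset.sum_comm]
        refine Finset.sum_congr rfl fun l _ => ?_
        rw [Finset.sum_mul]
    _ = ∑ j, X (Sum.inl j) * X (Sum.inr j) := by
        refine Finset.sum_congr rfl fun j _ => ?_
        simp_rw [h2]
        rw [Finset.sum_eq_single j]
        · simp
        · intro l _ hl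
          simp [hl.symm]
        · simp

theorem res_identity {m : ℕ} {g : Fin n × Fin k → ℂ} (hg : isom g)
    (p : Fin m → MvPolynomial (Fin n) ℂ) (A : MvPolynomial (Fin n ⊕ Fin n) ℂ)
    (h : ∑ i, rename Sum.inl (p i) * rename Sum.inr (cj (p i)) = q n * A) :
    ∑ i, rename Sum.inl (sub g (p i)) * rename Sum.inr (cj (sub g (p i))) =
      q k * resA g A := by
  have h1 := congrArg (resH g) h
  rw [map_mul, resH_q hg, map_sum] at h1
  rw [resA, ← h1]
  refine Finset.sum_congr rfl fun i _ => ?_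
  rw [map_mul, resH_inl, resH_inr, sub_cj]

end res

/-! ### The rank of a Hermitian polynomial -/

section rho

variable {n k : ℕ}

/-- The rank of `A`. -/
noncomputable def rho {n : ℕ} (A : MvPolynomial (Fin n ⊕ Fin n) ℂ) : ℕ :=
  finrank ℂ (Submodule.span ℂ (Set.range (fun b : Fin n → ℂ => sp b A)))

theorem sp_finite (A : MvPolynomial (Fin n ⊕ Fin n) ℂ) :
    ∃ W : Submodule ℂ (MvPolynomial (Fin n) ℂ), FiniteDimensional ℂ W ∧
      ∀ b : Fin n → ℂ, sp b A ∈ W := by
  induction A using MvPolynomial.induction_on with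
  | C a =>
    refine ⟨ℂ ∙ (1 : MvPolynomial (Fin n) ℂ), inferInstance, fun b => ?_⟩
    rw [sp, aeval_C, Algebra.algebraMap_eq_smul_one]
    exact Submodule.smul_mem _ _ (Submodule.mem_span_singleton_self _)
  | add P Q hP hQ =>
    obtain ⟨W, hW, h⟩ := hP
    obtain ⟨W', hW', h'⟩ := hQ
    refine ⟨W ⊔ W', inferInstance, fun b => ?_⟩
    rw [map_add]
    exact Submodule.add_mem_sup (h b) (h' b)
  | mul_X P i hP =>
    obtain ⟨W, hW, h⟩ := hP
    rcases i with i | i
    · refine ⟨W.map (LinearMap.mulRight ℂ (X i)), inferInstance, fun b => ?_⟩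
      refine ⟨sp b P, h b, ?_⟩
      rw [map_mul, LinearMap.mulRight_apply]
      congr 1
      simp [sp]
    · refine ⟨W, hW, fun b => ?_⟩
      rw [map_mul]
      have : sp b (X (Sum.inr i)) = C (b i) := by simp [sp]
      rw [this, mul_comm, ← smul_eq_C_mul]
      exact W.smul_mem _ (h b)

instance sp_span_finite (A : MvPolynomial (Fin n ⊕ Fin n) ℂ) :
    FiniteDimensional ℂ (Submodule.span ℂ (Set.range (fun b : Fin n → ℂ => sp b A))) := by
  obtain ⟨W, hW, h⟩ := sp_finite A
  refine Submodule.finiteDimensional_of_le (S₂ := W) ?_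
  rw [Submodule.span_le]
  rintro _ ⟨b, rfl⟩
  exact h b

theorem le_rho_of_det {s : ℕ} {A : MvPolynomial (Fin n ⊕ Fin n) ℂ}
    (x y : Fin s → (Fin n → ℂ))
    (h : (Matrix.of fun i l => eval (Sum.elim (x i) (y l)) A).det ≠ 0) : s ≤ rho A := by
  have hli : LinearIndependent ℂ (fun l => sp (y l) A) := by
    rw [Fintype.linearIndependent_iff]
    intro c hc
    have h1 : (Matrix.of fun i l => eval (Sum.elim (x i) (y l)) A).mulVec c = 0 := by
      funext i
      have h2 := congrArg (eval (x i)) hc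
      rw [map_sum, map_zero] at h2
      rw [Pi.zero_apply, ← h2]
      simp only [Matrix.mulVec, dotProduct, Matrix.of_apply]
      refine Finset.sum_congr rfl fun l _ => ?_
      rw [smul_eval, eval_sp, mul_comm]
    by_contra hne
    push Not at hne
    obtain ⟨l, hl⟩ := hne
    exact h (Matrix.exists_mulVec_eq_zero_iff.mp ⟨c, fun h0 => hl (congrFun h0 l), h1⟩)
  let S := Submodule.span ℂ (Set.range (fun b : Fin n → ℂ => sp b A))
  have hmem : ∀ l, sp (y l) A ∈ S := fun l => Submodule.subset_span ⟨y l, rfl⟩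
  have hli2 : LinearIndependent ℂ (fun l => (⟨sp (y l) A, hmem l⟩ : S)) := by
    apply LinearIndependent.of_comp S.subtype
    exact hli
  have h3 := hli2.fintype_card_le_finrank
  rw [Fintype.card_fin] at h3
  exact h3

/-- Points where linearly independent polynomials have independent values. -/
theorem exists_points_det {s : ℕ} (f : Fin s → MvPolynomial (Fin n) ℂ)
    (hf : LinearIndependent ℂ f) :
    ∃ x : Fin s → (Fin n → ℂ), (Matrix.of fun i l => eval (x i) (f l)).det ≠ 0 := by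
  let v : (Fin n → ℂ) → (Fin s → ℂ) := fun z l => eval z (f l)
  have hspan : Submodule.span ℂ (Set.range v) = ⊤ := by
    by_contra hne
    obtain ⟨φ, hφ0, hφ⟩ := Submodule.exists_le_ker_of_lt_top _ (lt_top_iff_ne_top.mpr hne)
    apply hφ0
    have hφe : ∀ w : Fin s → ℂ, φ w = ∑ l, φ (Pi.single l 1) * w l := by
      intro w
      conv_lhs => rw [← Finset.univ_sum_single w]
      rw [map_sum]
      refine Finset.sum_congr rfl fun l _ => ?_
      have : (Pi.single l (w l) : Fin s → ℂ) = w l • Pi.single l 1 := by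
        rw [← Pi.single_smul, smul_eq_mul, mul_one]
      rw [this, map_smul, smul_eq_mul, mul_comm]
    have h0 : ∑ l, φ (Pi.single l 1) • f l = 0 := by
      apply MvPolynomial.funext
      intro z
      rw [map_sum, map_zero]
      have h1 : φ (v z) = 0 := hφ (Submodule.subset_span ⟨z, rfl⟩)
      rw [hφe] at h1
      rw [← h1]
      exact Finset.sum_congr rfl fun l _ => by rw [smul_eval]
    have h2 := Fintype.linearIndependent_iff.mp hf _ h0
    apply LinearMap.ext
    intro w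
    rw [hφe, LinearMap.zero_apply]
    exact Finset.sum_eq_zero fun l _ => by rw [h2 l, zero_mul]
  obtain ⟨u, hu, -, hli⟩ := Submodule.exists_fun_fin_finrank_span_eq ℂ (Set.range v)
  have hs : s = finrank ℂ (Submodule.span ℂ (Set.range v)) := by
    rw [hspan, finrank_top, finrank_fin_fun]
  choose x hx using hu
  refine ⟨fun i => x (Fin.cast hs i), ?_⟩
  intro hdet
  obtain ⟨c, hc0, hc⟩ := Matrix.exists_vecMul_eq_zero_iff.mpr hdet
  apply hc0
  have hli2 : LinearIndependent ℂ (fun i : Fin s => u (Fin.cast hs i)) :=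
    hli.comp _ (Fin.cast_injective hs)
  have h3 := Fintype.linearIndependent_iff.mp hli2 c (by
    rw [← hc]
    funext l
    simp only [Finset.sum_apply, Pi.smul_apply, smul_eq_mul, Matrix.vecMul, dotProduct,
      Matrix.of_apply]
    refine Finset.sum_congr rfl fun i _ => ?_
    rw [← hx])
  exact funext h3

theorem exists_det_of_le_rho {s : ℕ} {A : MvPolynomial (Fin n ⊕ Fin n) ℂ} (h : s ≤ rho A) :
    ∃ x y : Fin s → (Fin n → ℂ),
      (Matrix.of fun i l => eval (Sum.elim (x i) (y l)) A).det ≠ 0 := by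
  obtain ⟨u, hu, -, hli⟩ := Submodule.exists_fun_fin_finrank_span_eq ℂ
    (Set.range (fun b : Fin n → ℂ => sp b A))
  choose y hy using hu
  let y' : Fin s → (Fin n → ℂ) := fun i => y (Fin.castLE h i)
  have hli2 : LinearIndependent ℂ (fun i : Fin s => sp (y' i) A) := by
    have h1 := hli.comp _ (Fin.castLE_injective h)
    have h2 : (fun i : Fin s => sp (y' i) A) = (u ∘ Fin.castLE h) := by
      funext i
      exact hy _
    rw [h2]
    exact h1
  obtain ⟨x, hx⟩ := exists_points_det _ hli2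
  refine ⟨x, y', ?_⟩
  simp_rw [eval_sp] at hx
  exact hx

/-- The polynomial whose nonvanishing ensures rank at least `s`. -/
noncomputable def rhoP {n k s : ℕ} (hs : s ≤ k) (A : MvPolynomial (Fin n ⊕ Fin n) ℂ) :
    MvPolynomial ((Fin n × Fin k) ⊕ (Fin n × Fin k)) ℂ :=
  (Matrix.of fun i l : Fin s => (aeval (Sum.elim (fun j => X (Sum.inl (j, Fin.castLE hs i)))
    (fun j => X (Sum.inr (j, Fin.castLE hs l)))) A :
      MvPolynomial ((Fin n × Fin k) ⊕ (Fin n × Fin k)) ℂ)).det

theorem eval_rhoP {s : ℕ} (hs : s ≤ k) (A : MvPolynomial (Fin n ⊕ Fin n) ℂ)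
    (g h : Fin n × Fin k → ℂ) :
    eval (Sum.elim g h) (rhoP hs A) = (Matrix.of fun i l : Fin s =>
      eval (Sum.elim (fun j => g (j, Fin.castLE hs i)) (fun j => h (j, Fin.castLE hs l))) A).det := by
  rw [rhoP, RingHom.map_det]
  congr 1
  ext i l
  rw [RingHom.mapMatrix_apply, Matrix.map_apply, Matrix.of_apply, Matrix.of_apply]
  have : ((eval (Sum.elim g h)).comp ((aeval (Sum.elim
      (fun j => X (Sum.inl (j, Fin.castLE hs i)))
      (fun j => X (Sum.inr (j, Fin.castLE hs l)))) : MvPolynomial (Fin n ⊕ Fin n) ℂ →ₐ[ℂ]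
      MvPolynomial ((Fin n × Fin k) ⊕ (Fin n × Fin k)) ℂ) :
      MvPolynomial (Fin n ⊕ Fin n) ℂ →+* MvPolynomial ((Fin n × Fin k) ⊕ (Fin n × Fin k)) ℂ)) =
      eval (Sum.elim (fun j => g (j, Fin.castLE hs i)) (fun j => h (j, Fin.castLE hs l))) := by
    apply MvPolynomial.ringHom_ext
    · intro r
      simp [MvPolynomial.algebraMap_eq]
    · intro i
      rcases i with i | i <;> simp
  exact RingHom.congr_fun this A

theorem rhoP_ne_zero {s : ℕ} (hs : s ≤ k) {A : MvPolynomial (Fin n ⊕ Fin n) ℂ}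
    (h : s ≤ rho A) : rhoP (n := n) hs A ≠ 0 := by
  classical
  obtain ⟨x, y, hxy⟩ := exists_det_of_le_rho h
  intro h0
  apply hxy
  let g : Fin n × Fin k → ℂ := fun z => if hz : z.2.1 < s then x ⟨z.2.1, hz⟩ z.1 else 0
  let g' : Fin n × Fin k → ℂ := fun z => if hz : z.2.1 < s then y ⟨z.2.1, hz⟩ z.1 else 0
  have h1 := eval_rhoP hs A g g'
  rw [h0, map_zero] at h1
  rw [h1]
  congr 1
  ext i l
  rw [Matrix.of_apply, Matrix.of_apply]
  congr 2
  congr 1
  · funext j
    simp [g]
  · funext j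
    simp [g']

theorem cg_mulr (g : Fin n × Fin k → ℂ) (T : Matrix (Fin k) (Fin k) ℂ) :
    cg (mulr g T) = mulg (cg g) (cg (toG T)) := by
  funext x
  simp [cg, mulr, mulg, toG]

theorem cg_toG_mulg (S T : Matrix (Fin k) (Fin k) ℂ) :
    mulg (cg (toG S)) (cg (toG T)) = cg (toG (S * T)) := by
  funext x
  simp [cg, mulg, toG, Matrix.mul_apply]

theorem cg_toG_one : cg (toG (1 : Matrix (Fin k) (Fin k) ℂ)) = toG 1 := by
  funext x
  simp only [cg, toG, Matrix.one_apply]
  split_ifs <;> simp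

theorem mv_toG_one (x : Fin k → ℂ) : mv (toG (1 : Matrix (Fin k) (Fin k) ℂ)) x = x := by
  funext i
  simp [mv, toG, Matrix.one_apply]

theorem mv_single (g : Fin n × Fin k → ℂ) (j : Fin k) :
    mv g (Pi.single j 1) = fun i => g (i, j) := by
  funext i
  simp [mv, Pi.single_apply]

theorem le_rho_resA {s : ℕ} (hs : s ≤ k) (A : MvPolynomial (Fin n ⊕ Fin n) ℂ)
    (g : Fin n × Fin k → ℂ) (hg : eval (Sum.elim g (fun x => (starRingEnd ℂ) (g x)))
      (rhoP hs A) ≠ 0) {T : Matrix (Fin k) (Fin k) ℂ} (hT : IsUnit T.det) :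
    s ≤ rho (resA (mulr g T) A) := by
  apply le_rho_of_det (fun i => mv (toG T⁻¹) (Pi.single (Fin.castLE hs i) 1))
    (fun l => mv (cg (toG T⁻¹)) (Pi.single (Fin.castLE hs l) 1))
  have h1 := eval_rhoP hs A g (cg g)
  have h2 : (Sum.elim g (cg g)) = Sum.elim g (fun x => (starRingEnd ℂ) (g x)) := rfl
  rw [h2] at h1
  rw [h1] at hg
  convert hg using 4 with i
  funext l
  rw [eval_resA]
  congr 2
  congr 1
  · rw [mulr_eq, mv_mulg, ← mv_mulg (toG T), mulg_toG, Matrix.mul_nonsing_inv T hT,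
      mv_toG_one, mv_single]
  · rw [cg_mulr, mv_mulg, ← mv_mulg (cg (toG T)), cg_toG_mulg, Matrix.mul_nonsing_inv T hT,
      cg_toG_one, mv_toG_one, mv_single]

end rho

/-! ### The final statement -/

theorem exists_good_isometry {n k D m : ℕ} (h2 : 2 ≤ k) (hk : k ≤ n)
    (p : Fin m → MvPolynomial (Fin n) ℂ) (A : MvPolynomial (Fin n ⊕ Fin n) ℂ)
    (hV : Submodule.span ℂ (Set.range p) ≤ homogeneousSubmodule (Fin n) ℂ D)
    (hc : Cop (Submodule.span ℂ (Set.range p)))
    (hA : ∑ i, rename Sum.inl (p i) * rename Sum.inr (cj (p i)) = q n * A)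
    (Φ : MvPolynomial (Fin n × Fin k) ℂ) (hΦ : Φ ≠ 0) :
    ∃ (g₀ : Fin n × Fin k → ℂ) (T : Matrix (Fin k) (Fin k) ℂ), IsUnit T.det ∧
      eval g₀ Φ ≠ 0 ∧ isom (mulr g₀ T) ∧
      Cop ((Submodule.span ℂ (Set.range p)).map (sub (mulr g₀ T)).toLinearMap) ∧
      (∀ l ≤ k, rk ((Submodule.span ℂ (Set.range p)).map (sub (mulr g₀ T)).toLinearMap) l =
        rk (Submodule.span ℂ (Set.range p)) l) ∧
      min (rho A) k ≤ rho (resA (mulr g₀ T) A) ∧
      ∑ i, rename Sum.inl (sub (mulr g₀ T) (p i)) *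
        rename Sum.inr (cj (sub (mulr g₀ T) (p i))) = q k * resA (mulr g₀ T) A := by
  have hfd : FiniteDimensional ℂ (Submodule.span ℂ (Set.range p)) :=
    FiniteDimensional.span_of_finite ℂ (Set.finite_range p)
  obtain ⟨Φ1, h10, hΦ1⟩ := (cop_restrict h2 _ hV hc).and
    (gen_rk_map_all (Submodule.span ℂ (Set.range p)) k)
  obtain ⟨g, hg, hg', T, hT, hT'⟩ := exists_isom hk (Φ * Φ1) (mul_ne_zero hΦ h10)
    (rhoP (min_le_right (rho A) k) A) (rhoP_ne_zero _ (min_le_left _ _))
  rw [map_mul] at hg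
  obtain ⟨hcop, hrk⟩ := hΦ1 g (right_ne_zero_of_mul hg)
  refine ⟨g, T, hT, left_ne_zero_of_mul hg, hT', hcop.mulr hT, fun l hl => ?_, ?_,
    res_identity hT' p A hA⟩
  · rw [rk_mulr _ _ hT, hrk l hl]
  · exact le_rho_resA _ A g hg' hT

end Pool.Agent.Lib_helper26.Ebe
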