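import Pool.Agent.Lib_helper97.Ebe.S1
import Pool.Agent.Lib_helper52.Ebe.P

/-!
# Realization of ranks of sums of squares divisible by the squared norm
-/

namespace Pool.Agent.Lib_helper26.Ebe

open MvPolynomial Pool.Agent.Lib_helper26.SOS Module Pool.Agent.Lib_helper97.Ebe

/-- A positive semidefinite form is a sum of exactly as many independent squares as the
dimension of the span of the squared polynomials. -/
theorem finrank_span_mem {n d : ℕ} {ι : Type*} [Fintype ι] (g : ι → MvPolynomial (Fin n) ℂ)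
    (A : MvPolynomial (Fin n ⊕ Fin n) ℂ)
    (h : ∑ i, rename Sum.inl (g i) * rename Sum.inr (cj (g i)) = q n ^ d * A) :
    finrank ℂ (Submodule.span ℂ (Set.range g)) ∈ S d n := by
  classical
  set F := ∑ i, rename Sum.inl (g i) * rename (Sum.inr : Fin n → Fin n ⊕ Fin n) (cj (g i)) with hF
  have hsw : psw F = F := by
    rw [hF, map_sum]
    refine Finset.sum_congr rfl fun i _ => ?_
    rw [map_mul, psw_inl, psw_inr, cj_cj, mul_comm]
  obtain ⟨ρ, f, ε, hf, hε, hA⟩ := diag_of_psw F hsw
  have hpos : ∀ k, ε k = 1 := by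
    intro k
    refine (hε k).resolve_right fun hk => ?_
    have h1 : f k ∉ Submodule.span ℂ (f '' {j | j ≠ k}) :=
      hf.notMem_span_image (by simp)
    obtain ⟨φ, hφ, hle⟩ := Submodule.exists_le_ker_of_notMem h1
    have h2 := congrArg (pph φ) hA
    rw [hF] at h2
    simp only [map_sum, pph_self] at h2
    have h3 : ∀ j ∈ Finset.univ, j ≠ k → pph φ (C (ε j : ℂ) * rename Sum.inl (f j) *
        rename Sum.inr (cj (f j))) = 0 := by
      intro j _ hj
      have h4 : φ (f j) = 0 := hle (Submodule.subset_span ⟨j, hj, rfl⟩)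
      rw [mul_assoc, ← smul_eq_C_mul, map_smul, pph_mul, h4, zero_mul, smul_zero]
    rw [Finset.sum_eq_single k h3 (fun hk' => absurd (Finset.mem_univ _) hk'), mul_assoc,
      ← smul_eq_C_mul, map_smul, pph_self, hk] at h2
    have h5 : ∑ i, ‖φ (g i)‖ ^ 2 = - ‖φ (f k)‖ ^ 2 := by
      have h6 : ((∑ i, ‖φ (g i)‖ ^ 2 : ℝ) : ℂ) = ((- ‖φ (f k)‖ ^ 2 : ℝ) : ℂ) := by
        rw [Complex.ofReal_sum, h2]
        push_cast
        simp
      exact_mod_cast h6
    have h7 : 0 ≤ ∑ i, ‖φ (g i)‖ ^ 2 := Finset.sum_nonneg fun i _ => by positivity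
    have h8 : 0 < ‖φ (f k)‖ ^ 2 := by
      have : 0 < ‖φ (f k)‖ := norm_pos_iff.2 hφ
      positivity
    linarith
  have hA' : F = ∑ k, rename Sum.inl (f k) * rename Sum.inr (cj (f k)) := by
    rw [hA]
    refine Finset.sum_congr rfl fun k _ => ?_
    rw [hpos, Complex.ofReal_one, C_1, one_mul]
  have e1 : Submodule.span ℂ (Set.range g) = Submodule.span ℂ (Set.range f) := by
    apply le_antisymm
    · exact psd_range (κ := Empty) g (fun x => x.elim) f (by
        rw [Finset.univ_eq_empty (α := Empty), Finset.sum_empty, add_zero, ← hF, hA'])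
    · exact psd_range (κ := Empty) f (fun x => x.elim) g (by
        rw [Finset.univ_eq_empty (α := Empty), Finset.sum_empty, add_zero, ← hF, hA'])
  rw [e1, finrank_span_eq_card hf, Fintype.card_fin]
  exact ⟨f, hf, A, fun z => of_polarized f A (by rw [← hA', h]) z⟩

theorem finrank_S1_mem {n : ℕ} (W : Submodule ℂ (MvPolynomial (Fin n) ℂ))
    [FiniteDimensional ℂ W] : finrank ℂ (S1 W) ∈ S 1 n := by
  classical
  set κ := finrank ℂ W
  let b := finBasis ℂ W
  have hW : W = Submodule.span ℂ (Set.range (fun k => (b k : MvPolynomial (Fin n) ℂ))) := by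
    have h1 := b.span_eq
    have h2 := congrArg (Submodule.map W.subtype) h1
    rw [Submodule.map_span, Submodule.map_top, Submodule.range_subtype] at h2
    rw [← Set.range_comp] at h2
    exact h2.symm
  have h3 : S1 W = Submodule.span ℂ (Set.range (fun x : Fin n × Fin κ =>
      X x.1 * (b x.2 : MvPolynomial (Fin n) ℂ))) := by
    conv_lhs => rw [hW]
    rw [S1_span_range]
  rw [h3]
  refine finrank_span_mem _ (∑ k, C ((1 : ℝ) : ℂ) * rename Sum.inl (b k : MvPolynomial (Fin n) ℂ) *
    rename Sum.inr (cj (b k : MvPolynomial (Fin n) ℂ))) ?_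
  rw [pow_one, q_mul_diag (fun k => (b k : MvPolynomial (Fin n) ℂ)) (fun _ => 1)]
  refine Finset.sum_congr rfl fun x _ => ?_
  rw [Complex.ofReal_one, C_1, one_mul]

/-- Monomial realization. -/
theorem card_shadow_mem {n : ℕ} (M T : Finset (Fin n →₀ ℕ))
    (hT : ∀ v, v ∈ T ↔ ∃ u ∈ M, ∃ i, v = u + Finsupp.single i 1) : T.card ∈ S 1 n := by
  classical
  let f : M → MvPolynomial (Fin n) ℂ := fun u => monomial (u : Fin n →₀ ℕ) 1
  let g : T → MvPolynomial (Fin n) ℂ := fun u => monomial (u : Fin n →₀ ℕ) 1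
  have hg : LinearIndependent ℂ g := by
    have := linearIndependent_monomials (ι := T) (fun u => (u : Fin n →₀ ℕ))
      Subtype.val_injective (fun _ => 1) (fun _ => one_ne_zero)
    simpa using this
  have h1 : S1 (Submodule.span ℂ (Set.range f)) = Submodule.span ℂ (Set.range g) := by
    rw [S1_span_range]
    congr 1
    ext v
    constructor
    · rintro ⟨⟨i, u⟩, rfl⟩
      refine ⟨⟨(u : Fin n →₀ ℕ) + Finsupp.single i 1, (hT _).2 ⟨u, u.2, i, rfl⟩⟩, ?_⟩
      simp only [f, g]
      rw [X, monomial_mul, one_mul, add_comm]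
    · rintro ⟨⟨v, hv⟩, rfl⟩
      obtain ⟨u, hu, i, rfl⟩ := (hT _).1 hv
      refine ⟨⟨i, ⟨u, hu⟩⟩, ?_⟩
      simp only [f, g]
      rw [X, monomial_mul, one_mul, add_comm]
  have : FiniteDimensional ℂ (Submodule.span ℂ (Set.range f)) :=
    FiniteDimensional.span_of_finite ℂ (Set.finite_range f)
  have h2 := finrank_S1_mem (Submodule.span ℂ (Set.range f))
  rwa [h1, finrank_span_eq_card hg, Fintype.card_coe] at h2

/-- The exponent of the product of two variables. -/
noncomputable def sE {n : ℕ} (s : Sym2 (Fin n)) : Fin n →₀ ℕ :=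
  s.lift ⟨fun i j => Finsupp.single i 1 + Finsupp.single j 1, fun _ _ => add_comm _ _⟩

theorem sE_mk {n : ℕ} (i j : Fin n) :
    sE s(i, j) = Finsupp.single i 1 + Finsupp.single j 1 := rfl

theorem sE_injective {n : ℕ} : Function.Injective (sE (n := n)) := by
  intro s t
  induction s using Sym2.ind with | _ i j =>
  induction t using Sym2.ind with | _ k l =>
  intro h
  rw [sE_mk, sE_mk, Finsupp.single_add_single_eq_single_add_single one_ne_zero one_ne_zero] at h
  rw [Sym2.eq_iff]
  rcases h with ⟨h1, h2⟩ | ⟨_, h1, h2⟩ | ⟨h, _⟩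
  · exact Or.inl ⟨h1, h2⟩
  · exact Or.inr ⟨h1, h2⟩
  · omega

/-- The pairs meeting `J`. -/
def pJ {n : ℕ} (J : Finset (Fin n)) : Finset (Sym2 (Fin n)) :=
  Finset.univ.filter fun s => ∃ j ∈ J, j ∈ s

theorem choose_two_id (a b : ℕ) :
    (a + b + 1).choose 2 + a.choose 2 = (b + 1).choose 2 + a * (a + b) := by
  induction a with
  | zero => simp
  | succ a ih =>
    have e1 : (a + 1 + b + 1).choose 2 = (a + b + 1) + (a + b + 1).choose 2 := by
      rw [show a + 1 + b + 1 = (a + b + 1) + 1 by ring, Nat.choose_succ_succ' _ 1, Nat.choose_one_right]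
    have e2 : (a + 1).choose 2 = a + a.choose 2 := by
      rw [Nat.choose_succ_succ' _ 1, Nat.choose_one_right]
    rw [e1, e2]
    have : (a + 1) * (a + 1 + b) = a * (a + b) + a + (a + b + 1) := by ring
    omega

theorem card_pJ {n : ℕ} (J : Finset (Fin n)) :
    (pJ J).card + J.card.choose 2 = J.card * n := by
  classical
  have h1 : (pJ J) = ((Jᶜ).sym2)ᶜ := by
    ext s
    rw [pJ, Finset.mem_filter, Finset.mem_compl, Finset.mem_sym2_iff]
    constructor
    · rintro ⟨_, j, hj, hs⟩ h
      exact Finset.mem_compl.1 (h j hs) hj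
    · intro h
      refine ⟨Finset.mem_univ _, ?_⟩
      by_contra h2
      refine h fun a ha => ?_
      rw [Finset.mem_compl]
      exact fun h3 => h2 ⟨a, h3, ha⟩
  have h2 : (pJ J).card + ((Jᶜ).sym2).card = (n + 1).choose 2 := by
    rw [h1, Finset.card_compl_add_card, Sym2.card, Fintype.card_fin]
  rw [Finset.card_sym2, Finset.card_compl, Fintype.card_fin] at h2
  have h3 : J.card ≤ n := by simpa using Finset.card_le_univ J
  have h4 := choose_two_id J.card (n - J.card)
  rw [Nat.add_sub_cancel' h3] at h4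
  omega

/-- Two monomial stars. -/
theorem two_stars_mem {n : ℕ} (o p : Fin n) (J1 J2 : Finset (Fin n)) (hop : o ≠ p)
    (ho : o ∉ J2) (hp : p ∉ J1) (m : ℕ)
    (hm : m + J1.card.choose 2 + J2.card.choose 2 + (J1 ∩ J2).card =
      (J1.card + J2.card) * n) : m ∈ S 1 n := by
  classical
  let e : Fin n → (Fin n →₀ ℕ) := fun i => Finsupp.single i 1
  let M : Finset (Fin n →₀ ℕ) := J1.image (fun j => e o + e j) ∪ J2.image (fun j => e p + e j)
  let T1 : Finset (Fin n →₀ ℕ) := (pJ J1).image (fun s => e o + sE s)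
  let T2 : Finset (Fin n →₀ ℕ) := (pJ J2).image (fun s => e p + sE s)
  have hi : ∀ (c : Fin n →₀ ℕ), Function.Injective (fun s : Sym2 (Fin n) => c + sE s) :=
    fun c s t h => sE_injective (add_left_cancel h)
  have c1 : T1.card = (pJ J1).card := Finset.card_image_of_injective _ (hi _)
  have c2 : T2.card = (pJ J2).card := Finset.card_image_of_injective _ (hi _)
  have hin : T1 ∩ T2 = (J1 ∩ J2).image (fun l => e o + e p + e l) := by
    ext v
    rw [Finset.mem_inter, Finset.mem_image, Finset.mem_image, Finset.mem_image]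
    constructor
    · rintro ⟨⟨s, hs, h1⟩, ⟨s', hs', h2⟩⟩
      rw [pJ, Finset.mem_filter] at hs hs'
      obtain ⟨_, j, hj, hjs⟩ := hs
      obtain ⟨_, j', hj', hjs'⟩ := hs'
      obtain ⟨i, rfl⟩ := Sym2.mem_iff_exists.1 hjs
      obtain ⟨i', rfl⟩ := Sym2.mem_iff_exists.1 hjs'
      have h3 : e o + (e j + e i) = e p + (e j' + e i') := by
        rw [sE_mk] at h1 h2
        exact h1.trans h2.symm
      have hj'o : j' ≠ o := fun h => ho (h ▸ hj')
      have hjp : j ≠ p := fun h => hp (h ▸ hj)
      have h4 := DFunLike.congr_fun h3 o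
      simp only [e, Finsupp.add_apply, Finsupp.single_apply] at h4
      rw [if_pos trivial, if_neg hop.symm, if_neg hj'o] at h4
      have hi' : i' = o := by
        by_contra h
        rw [if_neg h] at h4
        omega
      have h5 := DFunLike.congr_fun h3 p
      simp only [e, Finsupp.add_apply, Finsupp.single_apply] at h5
      rw [if_pos trivial, if_neg hop, if_neg hjp] at h5
      have hip : i = p := by
        by_contra h
        rw [if_neg h] at h5
        omega
      have h6 : e j = e j' := by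
        rw [hi', hip] at h3
        have h7 : e j + (e o + e p) = e j' + (e o + e p) := by
          rw [show e j + (e o + e p) = e o + (e j + e p) by abel, h3]
          abel
        exact add_right_cancel h7
      have h8 : j = j' := Finsupp.single_left_injective one_ne_zero h6
      refine ⟨j, Finset.mem_inter.2 ⟨hj, h8 ▸ hj'⟩, ?_⟩
      rw [← h1, hip, sE_mk]
      simp only [e]
      abel
    · rintro ⟨l, hl, rfl⟩
      obtain ⟨hl1, hl2⟩ := Finset.mem_inter.1 hl
      refine ⟨⟨s(l, p), ?_, ?_⟩, ⟨s(l, o), ?_, ?_⟩⟩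
      · rw [pJ, Finset.mem_filter]
        exact ⟨Finset.mem_univ _, l, hl1, Sym2.mem_mk_left _ _⟩
      · rw [sE_mk]
        simp only [e]
        abel
      · rw [pJ, Finset.mem_filter]
        exact ⟨Finset.mem_univ _, l, hl2, Sym2.mem_mk_left _ _⟩
      · rw [sE_mk]
        simp only [e]
        abel
  have c3 : (T1 ∩ T2).card = (J1 ∩ J2).card := by
    rw [hin]
    refine Finset.card_image_of_injective _ fun l l' h => ?_
    exact Finsupp.single_left_injective one_ne_zero (add_left_cancel h)
  have c4 := Finset.card_union_add_card_inter T1 T2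
  have c5 := card_pJ J1
  have c6 := card_pJ J2
  have hm' : m = (T1 ∪ T2).card := by
    rw [add_mul] at hm
    omega
  rw [hm']
  refine card_shadow_mem M (T1 ∪ T2) fun v => ?_
  rw [Finset.mem_union, Finset.mem_image, Finset.mem_image]
  constructor
  · rintro (⟨s, hs, rfl⟩ | ⟨s, hs, rfl⟩)
    · rw [pJ, Finset.mem_filter] at hs
      obtain ⟨_, j, hj, hjs⟩ := hs
      obtain ⟨i, rfl⟩ := Sym2.mem_iff_exists.1 hjs
      refine ⟨e o + e j, Finset.mem_union_left _ (Finset.mem_image_of_mem _ hj), i, ?_⟩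
      rw [sE_mk, add_assoc]
    · rw [pJ, Finset.mem_filter] at hs
      obtain ⟨_, j, hj, hjs⟩ := hs
      obtain ⟨i, rfl⟩ := Sym2.mem_iff_exists.1 hjs
      refine ⟨e p + e j, Finset.mem_union_right _ (Finset.mem_image_of_mem _ hj), i, ?_⟩
      rw [sE_mk, add_assoc]
  · rintro ⟨u, hu, i, rfl⟩
    rcases Finset.mem_union.1 hu with hu | hu
    · obtain ⟨j, hj, rfl⟩ := Finset.mem_image.1 hu
      refine Or.inl ⟨s(j, i), ?_, ?_⟩
      · rw [pJ, Finset.mem_filter]
        exact ⟨Finset.mem_univ _, j, hj, Sym2.mem_mk_left _ _⟩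
      · rw [sE_mk, add_assoc]
    · obtain ⟨j, hj, rfl⟩ := Finset.mem_image.1 hu
      refine Or.inr ⟨s(j, i), ?_, ?_⟩
      · rw [pJ, Finset.mem_filter]
        exact ⟨Finset.mem_univ _, j, hj, Sym2.mem_mk_left _ _⟩
      · rw [sE_mk, add_assoc]

theorem n_mem_S (n : ℕ) : n ∈ S 1 n := by
  rcases Nat.eq_zero_or_pos n with h | h
  · subst h
    exact zero_mem_S 1 0
  · have := choose_mem_S (d := 1) (n := n) (D := 1) h le_rfl
    simpa using this

theorem mul_mem_S (n k : ℕ) : k * n ∈ S 1 n := by
  rcases n with _ | n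
  · simpa using zero_mem_S 1 0
  induction k with
  | zero => simpa using zero_mem_S 1 (n + 1)
  | succ k ih =>
    rw [add_mul, one_mul]
    exact add_mem_S ih (n_mem_S (n + 1))

theorem add_mul_mem_S {n m : ℕ} (hm : m ∈ S 1 n) (k : ℕ) : m + k * n ∈ S 1 n := by
  rcases n with _ | n
  · simpa using hm
  exact add_mem_S hm (mul_mem_S (n + 1) k)

/-- The interval `[i, j)` in `Fin n`. -/
theorem card_filter_Ico (n i j : ℕ) (hj : j ≤ n) :
    (Finset.univ.filter fun x : Fin n => i ≤ x.1 ∧ x.1 < j).card = j - i := by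
  rw [← Nat.card_Ico i j, ← Finset.card_map Fin.valEmbedding]
  congr 1
  ext x
  rw [Finset.mem_map, Finset.mem_Ico]
  constructor
  · rintro ⟨y, hy, rfl⟩
    exact (Finset.mem_filter.1 hy).2
  · rintro ⟨h1, h2⟩
    exact ⟨⟨x, by omega⟩, Finset.mem_filter.2 ⟨Finset.mem_univ _, h1, h2⟩, rfl⟩

/-- Realization of the ranks `κ n - s`. -/
theorem real_mem {n a c t κ m : ℕ} (ht : t ≤ c) (hc : c < a) (hκ : a + c ≤ κ) (hn : a + c ≤ n)
    (hm : m + a.choose 2 + c.choose 2 + t = κ * n) : m ∈ S 1 n := by
  obtain ⟨l, rfl⟩ : ∃ l, κ = a + c + l := ⟨κ - (a + c), by omega⟩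
  rcases Nat.eq_zero_or_pos c with h0 | h0
  · subst h0
    obtain rfl : t = 0 := by omega
    simp only [add_zero, Nat.choose_zero_succ] at *
    have hle : a.choose 2 ≤ a * n := by
      have := card_pJ (n := n) (Finset.univ.filter fun x : Fin n => 0 ≤ x.1 ∧ x.1 < a)
      rw [card_filter_Ico n 0 a hn, Nat.sub_zero] at this
      omega
    obtain ⟨m', hm'⟩ : ∃ m', m' + a.choose 2 = a * n := ⟨a * n - a.choose 2, by omega⟩
    have e : m = m' + l * n := by
      rw [add_mul] at hm
      omega
    rw [e]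
    refine add_mul_mem_S ?_ l
    let M : Finset (Fin n →₀ ℕ) := (Finset.univ.filter fun x : Fin n => 0 ≤ x.1 ∧ x.1 < a).image
      (fun j => Finsupp.single j 1)
    have c1 : ((pJ (Finset.univ.filter fun x : Fin n => 0 ≤ x.1 ∧ x.1 < a)).image sE).card = m' := by
      rw [Finset.card_image_of_injective _ sE_injective]
      have := card_pJ (n := n) (Finset.univ.filter fun x : Fin n => 0 ≤ x.1 ∧ x.1 < a)
      rw [card_filter_Ico n 0 a hn, Nat.sub_zero] at this
      omega
    rw [← c1]
    refine card_shadow_mem M _ fun v => ?_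
    rw [Finset.mem_image]
    constructor
    · rintro ⟨s, hs, rfl⟩
      rw [pJ, Finset.mem_filter] at hs
      obtain ⟨_, j, hj, hjs⟩ := hs
      obtain ⟨i, rfl⟩ := Sym2.mem_iff_exists.1 hjs
      exact ⟨_, Finset.mem_image_of_mem _ hj, i, sE_mk _ _⟩
    · rintro ⟨u, hu, i, rfl⟩
      obtain ⟨j, hj, rfl⟩ := Finset.mem_image.1 hu
      refine ⟨s(j, i), ?_, sE_mk _ _⟩
      rw [pJ, Finset.mem_filter]
      exact ⟨Finset.mem_univ _, j, hj, Sym2.mem_mk_left _ _⟩
  · let J1 : Finset (Fin n) := Finset.univ.filter fun x : Fin n => 0 ≤ x.1 ∧ x.1 < a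
    let J2 : Finset (Fin n) := Finset.univ.filter fun x : Fin n => a - t ≤ x.1 ∧ x.1 < a - t + c
    have k1 : J1.card = a := by
      rw [card_filter_Ico n 0 a (by omega), Nat.sub_zero]
    have k2 : J2.card = c := by
      rw [card_filter_Ico n (a - t) (a - t + c) (by omega)]
      omega
    have k3 : (J1 ∩ J2).card = t := by
      have : J1 ∩ J2 = Finset.univ.filter fun x : Fin n => a - t ≤ x.1 ∧ x.1 < a := by
        ext x
        simp only [J1, J2, Finset.mem_inter, Finset.mem_filter, Finset.mem_univ, true_and]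
        omega
      rw [this, card_filter_Ico n (a - t) a (by omega)]
      omega
    have hpos : 0 < n := by omega
    have key : ∀ m', m' + a.choose 2 + c.choose 2 + t = (a + c) * n → m' ∈ S 1 n := by
      intro m' hm'
      refine two_stars_mem (⟨0, hpos⟩ : Fin n) ⟨a, by omega⟩ J1 J2 ?_ ?_ ?_ m' ?_
      · intro h
        have := congrArg Fin.val h
        simp only at this
        omega
      · simp only [J2, Finset.mem_filter, Finset.mem_univ, true_and]
        omega
      · simp only [J1, Finset.mem_filter, Finset.mem_univ, true_and]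
        omega
      · rw [k1, k2, k3]
        exact hm'
    have hle : a.choose 2 + c.choose 2 + t ≤ (a + c) * n := by
      have q1 := card_pJ J1
      have q2 := card_pJ J2
      have q3 : t ≤ (pJ J2).card := by
        rw [k2] at q2
        have w1 : c ≤ c * (n - c) + c * c := by
          have : c * 1 ≤ c * c := Nat.mul_le_mul_left c h0
          omega
        have w2 : c.choose 2 + c.choose 2 = c * (c - 1) := by
          rw [Nat.choose_two_right]
          have := Nat.even_mul_pred_self c
          obtain ⟨r, hr⟩ := this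
          omega
        have w3 : c * n = c * (c - 1) + c * (n - c + 1) := by
          rw [← mul_add]
          congr 1
          omega
        have w4 : c * 1 ≤ c * (n - c + 1) := Nat.mul_le_mul_left c (by omega)
        omega
      rw [k1] at q1
      rw [k2] at q2
      rw [add_mul]
      omega
    obtain ⟨m', hm'⟩ : ∃ m', m' + a.choose 2 + c.choose 2 + t = (a + c) * n :=
      ⟨(a + c) * n - (a.choose 2 + c.choose 2 + t), by omega⟩
    have e : m = m' + l * n := by
      rw [add_mul (a + c) l n] at hm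
      omega
    rw [e]
    exact add_mul_mem_S (key m' hm') l

/-- Closure of an explicit interval under adding multiples of `n`. -/
theorem mem_of_interval {n N : ℕ} (hn : 0 < n) (h : ∀ m, N ≤ m → m < N + n → m ∈ S 1 n)
    (m : ℕ) (hm : N ≤ m) : m ∈ S 1 n := by
  have h1 : m = (N + (m - N) % n) + (m - N) / n * n := by
    have := Nat.mod_add_div (m - N) n
    rw [mul_comm] at this
    omega
  rw [h1]
  exact add_mul_mem_S (h _ (by omega) (by have := Nat.mod_lt (m - N) hn; omega)) _

theorem S_three_sup (m : ℕ) (h : m = 0 ∨ m = 3 ∨ 5 ≤ m) : m ∈ S 1 3 := by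
  rcases h with rfl | rfl | h
  · exact zero_mem_S 1 3
  · exact n_mem_S 3
  · refine mem_of_interval (by norm_num) (fun m h1 h2 => ?_) m h
    obtain rfl | rfl | rfl : m = 5 ∨ m = 6 ∨ m = 7 := by omega
    · exact real_mem (a := 2) (c := 0) (t := 0) (κ := 2) (by omega) (by omega) (by omega)
        (by omega) (by decide)
    · exact mul_mem_S 3 2
    · exact real_mem (a := 2) (c := 1) (t := 1) (κ := 3) (by omega) (by omega) (by omega)
        (by omega) (by decide)

theorem S_four_sup (m : ℕ) (h : m = 0 ∨ m = 4 ∨ 7 ≤ m) : m ∈ S 1 4 := by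
  rcases h with rfl | rfl | h
  · exact zero_mem_S 1 4
  · exact n_mem_S 4
  · refine mem_of_interval (by norm_num) (fun m h1 h2 => ?_) m h
    obtain rfl | rfl | rfl | rfl : m = 7 ∨ m = 8 ∨ m = 9 ∨ m = 10 := by omega
    · exact real_mem (a := 2) (c := 0) (t := 0) (κ := 2) (by omega) (by omega) (by omega)
        (by omega) (by decide)
    · exact mul_mem_S 4 2
    · exact real_mem (a := 3) (c := 0) (t := 0) (κ := 3) (by omega) (by omega) (by omega)
        (by omega) (by decide)
    · exact real_mem (a := 2) (c := 1) (t := 1) (κ := 3) (by omega) (by omega) (by omega)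
        (by omega) (by decide)

theorem S_five_sup (m : ℕ) (h : m = 0 ∨ m = 5 ∨ m = 9 ∨ m = 10 ∨ 12 ≤ m) : m ∈ S 1 5 := by
  rcases h with rfl | rfl | rfl | rfl | h
  · exact zero_mem_S 1 5
  · exact n_mem_S 5
  · exact real_mem (a := 2) (c := 0) (t := 0) (κ := 2) (by omega) (by omega) (by omega)
        (by omega) (by decide)
  · exact mul_mem_S 5 2
  · refine mem_of_interval (by norm_num) (fun m h1 h2 => ?_) m h
    obtain rfl | rfl | rfl | rfl | rfl : m = 12 ∨ m = 13 ∨ m = 14 ∨ m = 15 ∨ m = 16 := by omega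
    · exact real_mem (a := 3) (c := 0) (t := 0) (κ := 3) (by omega) (by omega) (by omega)
        (by omega) (by decide)
    · exact real_mem (a := 2) (c := 1) (t := 1) (κ := 3) (by omega) (by omega) (by omega)
        (by omega) (by decide)
    · exact real_mem (a := 2) (c := 0) (t := 0) (κ := 3) (by omega) (by omega) (by omega)
        (by omega) (by decide)
    · exact mul_mem_S 5 3
    · exact real_mem (a := 3) (c := 1) (t := 1) (κ := 4) (by omega) (by omega) (by omega)
        (by omega) (by decide)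

end Pool.Agent.Lib_helper26.Ebe
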